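import Mathlib

/-!
Varieties of nonassociative algebras, the Specht property, superalgebras, Grassmann envelopes
and finite basic superrank.
-/

open scoped TensorProduct

namespace Pool.Agent.H237Z.Sp

universe u

/-- The free nonassociative (non-unital) `F`-algebra on countably many variables. -/
abbrev FN (F : Type u) [Field F] : Type u := FreeNonUnitalNonAssocAlgebra F ℕ

/-- The elements of the free algebra which vanish whenever elements of `E ⊆ A` are substituted
for the variables. For a subalgebra `E` these are the polynomial identities of `E`. -/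
def identitiesOn (F : Type u) [Field F] (A : Type u) [NonUnitalNonAssocRing A] [Module F A]
    (E : Set A) : Set (FN F) :=
  {f | ∀ φ : FN F →ₙₐ[F] A, (∀ i, φ (FreeNonUnitalNonAssocAlgebra.of F i) ∈ E) → φ f = 0}

/-- The polynomial identities of an algebra `A`. -/
def identities (F : Type u) [Field F] (A : Type u) [NonUnitalNonAssocRing A] [Module F A] :
    Set (FN F) :=
  identitiesOn F A Set.univ

/-- The sets of identities `S` and `T` define the same variety (the same class of algebras). -/
def SameVariety (F : Type u) [Field F] (S T : Set (FN F)) : Prop :=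
  ∀ (B : Type u) [NonUnitalNonAssocRing B] [Module F B] [IsScalarTower F B B]
    [SMulCommClass F B B], S ⊆ identities F B ↔ T ⊆ identities F B

/-- The variety defined by `S` is Spechtian: every algebra in it has a finite basis of its
identities. -/
def Spechtian (F : Type u) [Field F] (S : Set (FN F)) : Prop :=
  ∀ (A : Type u) [NonUnitalNonAssocRing A] [Module F A] [IsScalarTower F A A]
    [SMulCommClass F A A], S ⊆ identities F A →
      ∃ T : Set (FN F), T.Finite ∧ SameVariety F T (identities F A)

/-- A `ℤ/2`-grading of the algebra `A`, which makes it a superalgebra. -/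
structure SuperGrading (F : Type u) [Field F] (A : Type u) [NonUnitalNonAssocRing A]
    [Module F A] where
  /-- the even part `part 0` and the odd part `part 1` -/
  part : ZMod 2 → Submodule F A
  isCompl : IsCompl (part 0) (part 1)
  mul_mem : ∀ (i j : ZMod 2) (a b : A), a ∈ part i → b ∈ part j → a * b ∈ part (i + j)

/-- The subspace `G₀ ⊗ A₀ + G₁ ⊗ A₁` of `G ⊗ A`. -/
def envSpace {F : Type u} [Field F] {G : Type u} [Ring G] [Algebra F G] {A : Type u}
    [NonUnitalNonAssocRing A] [Module F A] (gp : ZMod 2 → Submodule F G)
    (ap : ZMod 2 → Submodule F A) : Submodule F (G ⊗[F] A) :=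
  Submodule.span F {x | ∃ (i : ZMod 2) (g : G) (a : A), g ∈ gp i ∧ a ∈ ap i ∧ x = g ⊗ₜ[F] a}

/-- The identities of the subalgebra `G₀ ⊗ A₀ + G₁ ⊗ A₁` of the algebra `G ⊗ A`. -/
def envIdentities {F : Type u} [Field F] {G : Type u} [Ring G] [Algebra F G] {A : Type u}
    [NonUnitalNonAssocRing A] [Module F A] [IsScalarTower F A A] [SMulCommClass F A A]
    (gp : ZMod 2 → Submodule F G) (ap : ZMod 2 → Submodule F A) : Set (FN F) :=
  identitiesOn F (G ⊗[F] A) (envSpace gp ap)

/-- The identities of the envelope `G₀ ⊗ A₀ + G₁ ⊗ A₁`, where `G` is the exterior algebra of the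
space `M` and `G₀`, `G₁` are its even and odd parts. -/
def extEnvIdentities {F : Type u} [Field F] (M : Type u) [AddCommGroup M] [Module F M]
    {A : Type u} [NonUnitalNonAssocRing A] [Module F A] [IsScalarTower F A A]
    [SMulCommClass F A A] (ap : ZMod 2 → Submodule F A) : Set (FN F) :=
  envIdentities (G := ExteriorAlgebra F M) (CliffordAlgebra.evenOdd (0 : QuadraticForm F M)) ap

/-- The variety defined by `S` has a finite basic superrank: it is the variety generated by the
Grassmann envelope of a finitely generated superalgebra. The Grassmann algebra on countably many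
generators is the exterior algebra of `ℕ →₀ F`. -/
def HasFiniteBasicSuperrank (F : Type u) [Field F] (S : Set (FN F)) : Prop :=
  ∃ (A : Type u) (_ : NonUnitalNonAssocRing A) (_ : Module F A) (_ : IsScalarTower F A A)
    (_ : SMulCommClass F A A) (gr : SuperGrading F A),
    (∃ s : Finset A, NonUnitalAlgebra.adjoin F (s : Set A) = ⊤) ∧
      SameVariety F S (extEnvIdentities (ℕ →₀ F) gr.part)

end Pool.Agent.H237Z.Sp
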