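import Mathlib

namespace Pool.Agent.H237Z.Sp

open ExteriorAlgebra

variable {F : Type*} [Field F]

lemma iotaMulti_ne_zero (n : ℕ) (v : Fin n → ℕ) (hv : Function.Injective v) :
    ιMulti F n (fun i => (Finsupp.single (v i) 1 : ℕ →₀ F)) ≠ 0 := by
  classical
  intro h
  let L : (ℕ →₀ F) →ₗ[F] (Fin n → F) := LinearMap.pi fun j => Finsupp.lapply (v j)
  let D : (ℕ →₀ F) [⋀^Fin n]→ₗ[F] F := (Matrix.detRowAlternating).compLinearMap L
  let f : ∀ i, (ℕ →₀ F) [⋀^Fin i]→ₗ[F] F := Function.update 0 n D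
  have h1 := liftAlternating_apply_ιMulti f (fun i => (Finsupp.single (v i) 1 : ℕ →₀ F))
  rw [h, map_zero] at h1
  have h2 : f n = D := Function.update_self ..
  rw [h2] at h1
  have h3 : (fun i => L (Finsupp.single (v i) 1)) = (1 : Matrix (Fin n) (Fin n) F) := by
    ext i j
    simp [L, Finsupp.single_apply, Matrix.one_apply, hv.eq_iff]
  have h4 : D (fun i => (Finsupp.single (v i) 1 : ℕ →₀ F)) = 1 := by
    change Matrix.det (fun i => L (Finsupp.single (v i) 1)) = 1
    rw [h3, Matrix.det_one]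
  rw [h4] at h1
  exact zero_ne_one h1

variable {M : Type*} [AddCommGroup M] [Module F M]

lemma iota_anti (x y : M) : ι F x * ι F y = - (ι F y * ι F x) :=
  eq_neg_of_add_eq_zero_left (ι_add_mul_swap x y)

lemma iota_iota_comm (x y : M) (g : ExteriorAlgebra F M) :
    g * (ι F x * ι F y) = (ι F x * ι F y) * g := by
  induction g using ExteriorAlgebra.induction with
  | algebraMap r => exact Algebra.commutes _ _
  | ι z =>
    rw [← mul_assoc, iota_anti z x, neg_mul, mul_assoc, iota_anti z y]
    simp [mul_assoc]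
  | mul a b ha hb => rw [mul_assoc, hb, ← mul_assoc, ha, mul_assoc]
  | add a b ha hb => rw [add_mul, mul_add, ha, hb]

lemma even_comm (x : ExteriorAlgebra F M)
    (hx : x ∈ CliffordAlgebra.evenOdd (0 : QuadraticForm F M) 0) (g : ExteriorAlgebra F M) :
    g * x = x * g := by
  induction x, hx using CliffordAlgebra.even_induction with
  | algebraMap r => exact (Algebra.commutes _ _).symm
  | add x y _ _ hx hy => rw [add_mul, mul_add, hx, hy]
  | ι_mul_ι_mul a b x _ hx =>
    have := iota_iota_comm a b g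
    change g * (ι F a * ι F b * x) = ι F a * ι F b * x * g
    rw [← mul_assoc, this, mul_assoc, hx, ← mul_assoc]

lemma odd_anti_aux (v : M) (y : ExteriorAlgebra F M)
    (hy : y ∈ CliffordAlgebra.evenOdd (0 : QuadraticForm F M) 1) :
    ι F v * y = - (y * ι F v) := by
  induction y, hy using CliffordAlgebra.odd_induction with
  | ι w => exact iota_anti v w
  | add x y _ _ hx hy => rw [add_mul, mul_add, hx, hy, neg_add]
  | ι_mul_ι_mul a b x _ hx =>
    have := iota_iota_comm a b (ι F v)
    change ι F v * (ι F a * ι F b * x) = - (ι F a * ι F b * x * ι F v)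
    rw [← mul_assoc, this, mul_assoc, hx, mul_neg, ← mul_assoc]

lemma odd_anti (x : ExteriorAlgebra F M)
    (hx : x ∈ CliffordAlgebra.evenOdd (0 : QuadraticForm F M) 1) (y : ExteriorAlgebra F M)
    (hy : y ∈ CliffordAlgebra.evenOdd (0 : QuadraticForm F M) 1) :
    x * y = - (y * x) := by
  induction x, hx using CliffordAlgebra.odd_induction with
  | ι w => exact odd_anti_aux w y hy
  | add x y _ _ hx hy => rw [add_mul, mul_add, hx, hy, neg_add]
  | ι_mul_ι_mul a b x _ hx =>
    have := iota_iota_comm a b y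
    change ι F a * ι F b * x * y = - (y * (ι F a * ι F b * x))
    rw [mul_assoc, hx, ← mul_assoc y, this, mul_neg]
    simp only [mul_assoc]

lemma odd_sq [CharZero F] (x : ExteriorAlgebra F M)
    (hx : x ∈ CliffordAlgebra.evenOdd (0 : QuadraticForm F M) 1) : x * x = 0 := by
  have h := odd_anti x hx x hx
  have h2 : (2 : F) • (x * x) = 0 := by
    rw [two_smul]
    exact add_eq_zero_iff_eq_neg.2 h
  exact (smul_eq_zero.1 h2).resolve_left two_ne_zero

lemma odd_move (x : ExteriorAlgebra F M)
    (hx : x ∈ CliffordAlgebra.evenOdd (0 : QuadraticForm F M) 1) (g : ExteriorAlgebra F M) :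
    ∃ g', g * x = x * g' := by
  have h : g ∈ CliffordAlgebra.evenOdd (0 : QuadraticForm F M) 0 ⊔
      CliffordAlgebra.evenOdd (0 : QuadraticForm F M) 1 := by
    rw [(CliffordAlgebra.evenOdd_isCompl (0 : QuadraticForm F M)).sup_eq_top]
    trivial
  obtain ⟨g0, h0, g1, h1, rfl⟩ := Submodule.mem_sup.1 h
  refine ⟨g0 - g1, ?_⟩
  rw [add_mul, mul_sub, even_comm g0 h0 x, odd_anti g1 h1 x hx, sub_eq_add_neg]

end Pool.Agent.H237Z.Sp
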