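import Pool.Agent.H237Z.Sp.Skew

open MvPolynomial

namespace Pool.Agent.H237Z.Sp

variable {F : Type*} [Field F]

/-- how often the index `a` occurs in a pair -/
def wt (a : ℕ) (q : Pr) : ℕ := (if q.1.1 = a then 1 else 0) + (if q.1.2 = a then 1 else 0)

/-- degree of a monomial in the index `a` -/
noncomputable def deg (a : ℕ) (m : Pr →₀ ℕ) : ℕ := Finsupp.weight (wt a) m

lemma E_diag_X (a : ℕ) (q : Pr) : E F a a (X q) = (wt a q : F) • X q := by
  rw [E_X, wt, ← om_X]
  split_ifs with h1 h2 h2
  · have := q.2; omega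
  · simp [h1]
  · simp [h2]
  · simp

lemma coeff_diag (D : Derivation F (RR F) (RR F)) (w : Pr → ℕ)
    (hD : ∀ q, D (X q) = (w q : F) • X q) (f : RR F) (m : Pr →₀ ℕ) :
    coeff m (D f) = (Finsupp.weight w m : F) * coeff m f := by
  classical
  induction f using MvPolynomial.induction_on generalizing m with
  | C c =>
    rw [derivation_C, coeff_zero, coeff_C]
    split_ifs with h
    · subst h; simp
    · simp
  | add p q hp hq => simp [hp, hq, mul_add]
  | mul_X p q hp =>
    rw [Derivation.leibniz, hD, smul_eq_mul, smul_eq_mul, coeff_add, mul_smul_comm, coeff_smul,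
      mul_comm (X q), coeff_mul_X', coeff_mul_X']
    split_ifs with h
    · rw [hp]
      have h1 : m = (m - Finsupp.single q 1) + Finsupp.single q 1 := by
        rw [tsub_add_cancel_of_le]
        rw [Finsupp.single_le_iff]
        exact Nat.pos_of_ne_zero (Finsupp.mem_support_iff.1 h)
      have h2 : Finsupp.weight w m = Finsupp.weight w (m - Finsupp.single q 1) + w q := by
        conv_lhs => rw [h1]
        rw [map_add, Finsupp.weight_single]
        simp
      rw [h2]
      push_cast
      simp only [smul_eq_mul]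
      ring
    · simp

lemma coeff_E_diag (a : ℕ) (f : RR F) (m : Pr →₀ ℕ) :
    coeff m (E F a a f) = (deg a m : F) * coeff m f :=
  coeff_diag _ _ (E_diag_X a) f m

lemma der_sum_apply {ι : Type*} (s : Finset ι) (D : ι → Derivation F (RR F) (RR F)) (f : RR F) :
    (∑ q ∈ s, D q) f = ∑ q ∈ s, D q f := by
  classical
  induction s using Finset.induction_on with
  | empty => simp
  | insert a s ha ih => rw [Finset.sum_insert ha, Finset.sum_insert ha, Derivation.add_apply, ih]

lemma derivation_eq_sum (D : Derivation F (RR F) (RR F)) (f : RR F) (s : Finset Pr)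
    (hs : f.vars ⊆ s) : D f = ∑ q ∈ s, D (X q) * pderiv q f := by
  classical
  have := derivation_eq_of_forall_mem_vars (D₁ := D)
    (D₂ := ∑ q ∈ s, D (X q) • pderiv q) (f := f) (by
      intro i hi
      rw [der_sum_apply, Finset.sum_eq_single i]
      · simp
      · intro b _ hb
        simp [pderiv_X_of_ne (Ne.symm hb)]
      · intro h; exact absurd (hs hi) h)
  rw [this, der_sum_apply]
  simp

lemma term_lemma (q q' : Pr) (f : RR F) (m' : Pr →₀ ℕ)
    (h : coeff m' (X q' * pderiv q f) ≠ 0) :
    ∃ m ∈ f.support, m' + Finsupp.single q 1 = m + Finsupp.single q' 1 := by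
  classical
  rw [coeff_X_mul'] at h
  split_ifs at h with h1
  · rw [coeff_pderiv] at h
    refine ⟨_, mem_support_iff.2 (left_ne_zero_of_mul h), ?_⟩
    have h2 : Finsupp.single q' 1 ≤ m' := by
      rw [Finsupp.single_le_iff]
      exact Nat.pos_of_ne_zero (Finsupp.mem_support_iff.1 h1)
    rw [add_right_comm, tsub_add_cancel_of_le h2]
  · exact absurd rfl h

/-- `q = {x, b}` and `q' = {x, a}` -/
def Rel (a b : ℕ) (q q' : Pr) : Prop :=
  ∃ x, ((q.1.1 = x ∧ q.1.2 = b) ∨ (q.1.1 = b ∧ q.1.2 = x)) ∧
    ((q'.1.1 = x ∧ q'.1.2 = a) ∨ (q'.1.1 = a ∧ q'.1.2 = x))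

lemma om_cases (i j : ℕ) : om F i j = 0 ∨ ∃ q' : Pr, (om F i j = X q' ∨ om F i j = - X q') ∧
    ((q'.1.1 = i ∧ q'.1.2 = j) ∨ (q'.1.1 = j ∧ q'.1.2 = i)) := by
  unfold om
  split_ifs with h1 h2
  · exact Or.inr ⟨⟨(i, j), h1⟩, Or.inl rfl, Or.inl ⟨rfl, rfl⟩⟩
  · exact Or.inr ⟨⟨(j, i), h2⟩, Or.inr rfl, Or.inr ⟨rfl, rfl⟩⟩
  · exact Or.inl rfl

lemma E_X_cases (a b : ℕ) (q : Pr) : E F a b (X q) = 0 ∨
    ∃ q' : Pr, (E F a b (X q) = X q' ∨ E F a b (X q) = - X q') ∧ Rel a b q q' := by
  rw [E_X]
  split_ifs with h1 h2 h2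
  · have := q.2; omega
  · rw [add_zero]
    rcases om_cases (F := F) a q.1.2 with h | ⟨q', h, h'⟩
    · exact Or.inl h
    · exact Or.inr ⟨q', h, q.1.2, Or.inr ⟨h1, rfl⟩, h'.symm⟩
  · rw [zero_add]
    rcases om_cases (F := F) q.1.1 a with h | ⟨q', h, h'⟩
    · exact Or.inl h
    · exact Or.inr ⟨q', h, q.1.1, Or.inl ⟨rfl, h2⟩, h'⟩
  · exact Or.inl (add_zero _)

lemma term_E (a b : ℕ) (q : Pr) (f : RR F) (m' : Pr →₀ ℕ)
    (h : coeff m' (E F a b (X q) * pderiv q f) ≠ 0) :
    ∃ m ∈ f.support, ∃ q', Rel a b q q' ∧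
      m' + Finsupp.single q 1 = m + Finsupp.single q' 1 := by
  rcases E_X_cases (F := F) a b q with h0 | ⟨q', h1 | h1, h2⟩
  · simp [h0] at h
  · rw [h1] at h
    obtain ⟨m, hm, h3⟩ := term_lemma q q' f m' h
    exact ⟨m, hm, q', h2, h3⟩
  · rw [h1, neg_mul, coeff_neg, neg_ne_zero] at h
    obtain ⟨m, hm, h3⟩ := term_lemma q q' f m' h
    exact ⟨m, hm, q', h2, h3⟩

lemma supp_E (a b : ℕ) (f : RR F) (m' : Pr →₀ ℕ) (h : m' ∈ (E F a b f).support) :
    ∃ m ∈ f.support, ∃ q q', Rel a b q q' ∧
      m' + Finsupp.single q 1 = m + Finsupp.single q' 1 := by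
  rw [mem_support_iff, derivation_eq_sum _ f f.vars subset_rfl, coeff_sum] at h
  obtain ⟨q, _, hq⟩ := Finset.exists_ne_zero_of_sum_ne_zero h
  obtain ⟨m, hm, q', h1, h2⟩ := term_E a b q f m' hq
  exact ⟨m, hm, q, q', h1, h2⟩

/-- killed by all raising operators -/
def Top (f : RR F) : Prop := ∀ a b, 1 ≤ a → a < b → E F a b f = 0

/-- highest weight vector -/
def IsHW (f : RR F) (lam : ℕ → ℕ) : Prop :=
  Top f ∧ ∀ a, 1 ≤ a → E F a a f = (lam a : F) • f

/-- stable under the upper triangular operators -/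
def Up (W : Submodule F (RR F)) : Prop := ∀ a b, 1 ≤ a → a ≤ b → ∀ f ∈ W, E F a b f ∈ W

lemma exists_top {W : Submodule F (RR F)} (hW : Up W) (n : ℕ) : ∀ f ∈ W, f ≠ 0 →
    (∀ m ∈ f.support, Finsupp.weight (fun q : Pr => q.1.1 + q.1.2) m < n) →
    ∃ g ∈ W, g ≠ 0 ∧ Top g := by
  induction n with
  | zero =>
    intro f _ h0 h
    obtain ⟨m, hm⟩ := support_nonempty.2 h0
    exact absurd (h m hm) (Nat.not_lt_zero _)
  | succ n ih =>
    intro f hf h0 h
    by_cases ht : Top f
    · exact ⟨f, hf, h0, ht⟩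
    · simp only [Top, not_forall] at ht
      obtain ⟨a, b, ha, hab, hne⟩ := ht
      refine ih _ (hW a b ha hab.le f hf) hne fun m' hm' => ?_
      obtain ⟨m, hm, q, q', ⟨x, h1, h2⟩, h3⟩ := supp_E a b f m' hm'
      have h4 := congrArg (Finsupp.weight (fun q : Pr => q.1.1 + q.1.2)) h3
      simp only [map_add, Finsupp.weight_single, one_smul] at h4
      have := h m hm
      omega

lemma Top.diag {f : RR F} (hf : Top f) (a : ℕ) : Top (E F a a f) := by
  intro c d hc hcd
  have := E_comm c d a a f
  rw [hf c d hc hcd, map_zero, sub_zero] at this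
  rw [this]
  split_ifs with h1 h2 h2
  · omega
  · subst h1; simp [hf c d hc hcd]
  · subst h2; simp [hf a d hc hcd]
  · simp

lemma exists_hw_aux [CharZero F] {W : Submodule F (RR F)} (hW : Up W) (n : ℕ) :
    ∀ f ∈ W, f ≠ 0 → Top f → f.support.card ≤ n →
    ∃ g ∈ W, g ≠ 0 ∧ ∃ lam, IsHW g lam := by
  classical
  induction n with
  | zero =>
    intro f _ h0 _ h
    have := (support_nonempty.2 h0).card_pos
    omega
  | succ n ih =>
    intro f hf h0 ht h
    obtain ⟨m0, hm0⟩ := support_nonempty.2 h0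
    by_cases hd : ∀ a, 1 ≤ a → ∀ m ∈ f.support, deg a m = deg a m0
    · refine ⟨f, hf, h0, fun a => deg a m0, ht, fun a ha => ?_⟩
      ext m
      rw [coeff_E_diag, coeff_smul, smul_eq_mul]
      by_cases hm : m ∈ f.support
      · rw [hd a ha m hm]
      · rw [notMem_support_iff.1 hm]; simp
    · simp only [not_forall] at hd
      obtain ⟨a, ha, m1, hm1, hne⟩ := hd
      have hc : ∀ m, coeff m (E F a a f - (deg a m0 : F) • f) =
          ((deg a m : F) - deg a m0) * coeff m f := by
        intro m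
        rw [coeff_sub, coeff_E_diag, coeff_smul, smul_eq_mul, sub_mul]
      refine ih (E F a a f - (deg a m0 : F) • f)
        (sub_mem (hW a a ha le_rfl f hf) (W.smul_mem _ hf)) ?_ ?_ ?_
      · intro h1
        have := hc m1
        rw [h1, coeff_zero] at this
        rcases mul_eq_zero.1 this.symm with h2 | h2
        · rw [sub_eq_zero, Nat.cast_inj] at h2
          exact hne h2
        · exact mem_support_iff.1 hm1 h2
      · intro c d hc hcd
        rw [map_sub, ht.diag a c d hc hcd, Derivation.map_smul, ht c d hc hcd]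
        simp
      · have : (E F a a f - (deg a m0 : F) • f).support ⊆ f.support.erase m0 := by
          intro m hm
          rw [mem_support_iff, hc] at hm
          rw [Finset.mem_erase, mem_support_iff]
          refine ⟨?_, right_ne_zero_of_mul hm⟩
          rintro rfl
          simp at hm
        have h2 := Finset.card_le_card this
        rw [Finset.card_erase_of_mem hm0] at h2
        omega

lemma exists_hw [CharZero F] {W : Submodule F (RR F)} (hW : Up W) (h : W ≠ ⊥) :
    ∃ g ∈ W, g ≠ 0 ∧ ∃ lam, IsHW g lam := by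
  obtain ⟨f, hf, h0⟩ := (Submodule.ne_bot_iff W).1 h
  obtain ⟨g, hg, hg0, ht⟩ := exists_top hW
    (f.support.sup (Finsupp.weight (fun q : Pr => q.1.1 + q.1.2)) + 1) f hf h0
    (fun m hm => Nat.lt_succ_of_le (Finset.le_sup (f := Finsupp.weight _) hm))
  exact exists_hw_aux hW _ g hg hg0 ht le_rfl

/-- the pair `(i, i+1)` -/
def pth (i : ℕ) : Pr := ⟨(i, i + 1), Nat.lt_succ_self i⟩

/-- monomials in the variables `pth i` only -/
def IsPath (m : Pr →₀ ℕ) : Prop := ∀ q ∈ m.support, q.1.2 = q.1.1 + 1

lemma slice [CharZero F] {f : RR F} (hf : Top f) (h0 : f ≠ 0) : ∃ m ∈ f.support, IsPath m := by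
  classical
  obtain ⟨m, hm, hmax⟩ := Finset.exists_max_image f.support
    (fun m => (toLex (fun i => m (pth i)) : Lex (ℕ → ℕ))) (support_nonempty.2 h0)
  refine ⟨m, hm, ?_⟩
  by_contra hp
  simp only [IsPath, not_forall] at hp
  obtain ⟨q, hq, hne⟩ := hp
  have hlt := q.2
  have hq1 : Finsupp.single q 1 ≤ m := by
    rw [Finsupp.single_le_iff]
    exact Nat.pos_of_ne_zero (Finsupp.mem_support_iff.1 hq)
  have hE := hf (q.1.1 + 1) q.1.2 (by omega) (by omega)
  have hqv : q ∈ f.vars := (mem_vars_iff_mem_support q).2 ⟨m, hm, hq⟩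
  have h1 := congrArg (coeff (m - Finsupp.single q 1 + Finsupp.single (pth q.1.1) 1)) hE
  rw [derivation_eq_sum _ f f.vars subset_rfl, coeff_sum, coeff_zero,
    Finset.sum_eq_single_of_mem q hqv] at h1
  · have h2 : E F (q.1.1 + 1) q.1.2 (X q) = X (pth q.1.1) := by
      rw [E_X, if_neg (by omega), if_pos rfl, zero_add]
      exact om_X (pth q.1.1)
    rw [h2, add_comm (m - Finsupp.single q 1), coeff_X_mul, coeff_pderiv,
      tsub_add_cancel_of_le hq1] at h1
    rcases mul_eq_zero.1 h1 with h3 | h3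
    · exact mem_support_iff.1 hm h3
    · exact Nat.cast_add_one_ne_zero _ h3
  · intro r _ hr
    by_contra h3
    obtain ⟨m2, hm2, r', ⟨x, h4, h5⟩, h6⟩ := term_E _ _ r f _ h3
    have h7 : m + Finsupp.single (pth q.1.1) 1 + Finsupp.single r 1 =
        m2 + Finsupp.single r' 1 + Finsupp.single q 1 := by
      rw [← h6]
      ext y
      have := DFunLike.congr_fun (tsub_add_cancel_of_le hq1) y
      simp only [Finsupp.add_apply] at this ⊢
      omega
    have hx : x ≠ q.1.1 := by
      rintro rfl
      apply hr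
      have := r.2
      apply Subtype.ext
      apply Prod.ext <;> omega
    have h8 : ∀ j, j ≤ q.1.1 → m2 (pth j) = m (pth j) + if j = q.1.1 then 1 else 0 := by
      intro j hj
      have h9 := DFunLike.congr_fun h7 (pth j)
      simp only [Finsupp.add_apply, Finsupp.single_apply] at h9
      have e1 : ¬ (r = pth j) := by
        rintro rfl
        simp only [pth] at h4
        omega
      have e2 : ¬ (r' = pth j) := by
        rintro rfl
        simp only [pth] at h5
        omega
      have e3 : ¬ (q = pth j) := by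
        rintro rfl
        exact hne rfl
      have e4 : (pth q.1.1 = pth j) ↔ j = q.1.1 := by
        constructor
        · intro h
          have := congrArg (fun p : Pr => p.1.1) h
          simpa [pth] using this.symm
        · rintro rfl; rfl
      simp only [e1, e2, e3, e4, if_false, add_zero] at h9
      exact h9.symm
    refine absurd (hmax m2 hm2) (not_le.2 ⟨q.1.1, fun j hj => ?_, ?_⟩)
    · have := h8 j hj.le
      rw [if_neg hj.ne] at this
      exact this.symm
    · have := h8 q.1.1 le_rfl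
      rw [if_pos rfl] at this
      change m (pth q.1.1) < m2 (pth q.1.1)
      omega

lemma deg_path {m : Pr →₀ ℕ} (hm : IsPath m) (a : ℕ) :
    deg (a + 1) m = m (pth a) + m (pth (a + 1)) := by
  classical
  have h1 : ∀ p : Pr, ∑ q ∈ m.support, m q * (if q = p then 1 else 0) = m p := by
    intro p
    simp only [mul_ite, mul_one, mul_zero, Finset.sum_ite_eq']
    split_ifs with h
    · rfl
    · exact (Finsupp.notMem_support_iff.1 h).symm
  rw [deg, Finsupp.weight_apply, Finsupp.sum, ← h1 (pth a), ← h1 (pth (a + 1)),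
    ← Finset.sum_add_distrib]
  refine Finset.sum_congr rfl fun q hq => ?_
  have h2 := hm q hq
  have e1 : q = pth a ↔ q.1.2 = a + 1 := by
    constructor
    · rintro rfl; rfl
    · intro h
      apply Subtype.ext
      apply Prod.ext <;> simp only [pth] <;> omega
  have e2 : q = pth (a + 1) ↔ q.1.1 = a + 1 := by
    constructor
    · rintro rfl; rfl
    · intro h
      apply Subtype.ext
      apply Prod.ext <;> simp only [pth] <;> omega
  simp only [e1, e2, wt, smul_eq_mul]
  ring

lemma exists_bound (m : Pr →₀ ℕ) : ∃ N, ∀ q ∈ m.support, q.1.2 ≤ N :=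
  ⟨m.support.sup fun q => q.1.2, fun _ hq => Finset.le_sup (f := fun q : Pr => q.1.2) hq⟩

lemma path_unique {m m' : Pr →₀ ℕ} (hm : IsPath m) (hm' : IsPath m')
    (h : ∀ a, 1 ≤ a → deg a m = deg a m') : m = m' := by
  obtain ⟨N, hN⟩ := exists_bound m
  obtain ⟨N', hN'⟩ := exists_bound m'
  have h1 : ∀ k i, N + N' ≤ i + k → m (pth i) = m' (pth i) := by
    intro k
    induction k with
    | zero =>
      intro i hi
      have e1 : m (pth i) = 0 := by
        by_contra h2
        have := hN _ (Finsupp.mem_support_iff.2 h2)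
        simp only [pth] at this
        omega
      have e2 : m' (pth i) = 0 := by
        by_contra h2
        have := hN' _ (Finsupp.mem_support_iff.2 h2)
        simp only [pth] at this
        omega
      rw [e1, e2]
    | succ k ih =>
      intro i hi
      have h2 := ih (i + 1) (by omega)
      have h3 := h (i + 1) (by omega)
      rw [deg_path hm, deg_path hm'] at h3
      omega
  ext q
  by_cases hq : q.1.2 = q.1.1 + 1
  · have : q = pth q.1.1 := by
      apply Subtype.ext
      apply Prod.ext <;> simp only [pth]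
      exact hq
    rw [this]
    exact h1 (N + N') _ (by omega)
  · have e1 : m q = 0 := by
      by_contra h2
      exact hq (hm q (Finsupp.mem_support_iff.2 h2))
    have e2 : m' q = 0 := by
      by_contra h2
      exact hq (hm' q (Finsupp.mem_support_iff.2 h2))
    rw [e1, e2]

lemma deg_of_eigen [CharZero F] {f : RR F} {a : ℕ} {c : F} (h : E F a a f = c • f)
    {m : Pr →₀ ℕ} (hm : m ∈ f.support) : (deg a m : F) = c := by
  have := congrArg (coeff m) h
  rw [coeff_E_diag, coeff_smul, smul_eq_mul] at this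
  exact mul_right_cancel₀ (mem_support_iff.1 hm) this

lemma IsHW.deg_eq [CharZero F] {f : RR F} {lam : ℕ → ℕ} (h : IsHW f lam)
    {m : Pr →₀ ℕ} (hm : m ∈ f.support) {a : ℕ} (ha : 1 ≤ a) : deg a m = lam a := by
  exact_mod_cast deg_of_eigen (h.2 a ha) hm

lemma mult_one [CharZero F] {f g : RR F} {lam : ℕ → ℕ} (hf : IsHW f lam) (hg : IsHW g lam)
    (h0 : g ≠ 0) : ∃ c : F, f = c • g := by
  obtain ⟨m, hm, hp⟩ := slice hg.1 h0
  refine ⟨coeff m f / coeff m g, ?_⟩
  by_contra hne
  rw [← sub_eq_zero] at hne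
  have h1 : IsHW (f - (coeff m f / coeff m g) • g) lam := by
    refine ⟨fun a b ha hab => ?_, fun a ha => ?_⟩
    · rw [map_sub, Derivation.map_smul, hf.1 a b ha hab, hg.1 a b ha hab]; simp
    · rw [map_sub, Derivation.map_smul, hf.2 a ha, hg.2 a ha, smul_sub, smul_comm]
  obtain ⟨m', hm', hp'⟩ := slice h1.1 hne
  have : m' = m := path_unique hp' hp fun a ha => by rw [h1.deg_eq hm' ha, hg.deg_eq hm ha]
  subst this
  rw [mem_support_iff, coeff_sub, coeff_smul, smul_eq_mul,
    div_mul_cancel₀ _ (mem_support_iff.1 hm)] at hm'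
  exact hm' (sub_self _)

lemma IsHW.dominant [CharZero F] {f : RR F} {lam : ℕ → ℕ} (hf : IsHW f lam) (h0 : f ≠ 0)
    {a : ℕ} (ha : 1 ≤ a) : lam (a + 1) ≤ lam a := by
  let v : ℕ → RR F := fun n => (E F (a + 1) a)^[n] f
  have hv : ∀ n, v (n + 1) = E F (a + 1) a (v n) := fun n => Function.iterate_succ_apply' _ _ _
  have h1 : ∀ n, E F a a (v n) = ((lam a : F) - n) • v n := by
    intro n
    induction n with
    | zero => simpa [v] using hf.2 a ha
    | succ n ih =>
      have := E_comm a a (a + 1) a (v n)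
      rw [if_neg (by omega), if_pos rfl, ih, Derivation.map_smul, ← hv, sub_eq_iff_eq_add] at this
      rw [this]
      push_cast
      module
  have h2 : ∀ n, E F (a + 1) (a + 1) (v n) = ((lam (a + 1) : F) + n) • v n := by
    intro n
    induction n with
    | zero => simpa [v] using hf.2 (a + 1) (by omega)
    | succ n ih =>
      have := E_comm (a + 1) (a + 1) (a + 1) a (v n)
      rw [if_pos rfl, if_neg (by omega), ih, Derivation.map_smul, ← hv, sub_eq_iff_eq_add] at this
      rw [this]
      push_cast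
      module
  have h3 : ∀ n, E F a (a + 1) (v (n + 1)) =
      (((n : F) + 1) * ((lam a : F) - lam (a + 1) - n)) • v n := by
    intro n
    induction n with
    | zero =>
      have := E_comm a (a + 1) (a + 1) a (v 0)
      have h0 : E F a (a + 1) (v 0) = 0 := hf.1 a (a + 1) ha (by omega)
      rw [if_pos rfl, if_pos rfl, h0, map_zero, sub_zero, ← hv, h1, h2] at this
      rw [this]
      push_cast
      module
    | succ n ih =>
      have := E_comm a (a + 1) (a + 1) a (v (n + 1))
      rw [if_pos rfl, if_pos rfl, ih, Derivation.map_smul, ← hv, ← hv, h1, h2,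
        sub_eq_iff_eq_add] at this
      rw [this]
      push_cast
      module
  have h4 : v (lam a + 1) = 0 := by
    by_contra hne
    obtain ⟨m, hm⟩ := support_nonempty.2 hne
    have := deg_of_eigen (h1 (lam a + 1)) hm
    push_cast at this
    apply Nat.cast_add_one_ne_zero (R := F) (deg a m)
    rw [this]; ring
  have h5 : ∃ n, v (n + 1) = 0 := ⟨_, h4⟩
  classical
  have h6 := Nat.find_spec h5
  have h7 : v (Nat.find h5) ≠ 0 := by
    rcases h : Nat.find h5 with _ | k
    · exact h0
    · exact Nat.find_min h5 (by omega)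
  have h8 := h3 (Nat.find h5)
  rw [h6, map_zero] at h8
  rcases smul_eq_zero.1 h8.symm with h9 | h9
  · rcases mul_eq_zero.1 h9 with h10 | h10
    · exact absurd h10 (Nat.cast_add_one_ne_zero _)
    · have : (lam a : F) = ((lam (a + 1) + Nat.find h5 : ℕ) : F) := by
        push_cast; linear_combination h10
      have := Nat.cast_injective this
      omega
  · exact absurd h9 h7

lemma IsHW.eventually_zero [CharZero F] {f : RR F} {lam : ℕ → ℕ} (hf : IsHW f lam) (h0 : f ≠ 0) :
    ∃ N, ∀ a, N < a → lam a = 0 := by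
  obtain ⟨m, hm⟩ := support_nonempty.2 h0
  obtain ⟨N, hN⟩ := exists_bound m
  refine ⟨N, fun a ha => ?_⟩
  rw [← hf.deg_eq hm (by omega), deg, Finsupp.weight_apply, Finsupp.sum]
  refine Finset.sum_eq_zero fun q hq => ?_
  have h1 := hN q hq
  have h2 := q.2
  rw [wt, if_neg (by omega), if_neg (by omega)]
  simp

/-- number of columns of length at least `a` -/
def cnt (l : List ℕ) (a : ℕ) : ℕ := l.countP fun c => a ≤ c

lemma cnt_cons (c : ℕ) (l : List ℕ) (a : ℕ) :
    cnt (c :: l) a = (if a ≤ c then 1 else 0) + cnt l a := by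
  simp [cnt, List.countP_cons, add_comm]

lemma exists_list (n : ℕ) : ∀ lam : ℕ → ℕ, (∀ a, 1 ≤ a → lam (a + 1) ≤ lam a) →
    (∃ N, ∀ a, N < a → lam a = 0) → lam 1 = n → ∃ l : List ℕ, ∀ a, 1 ≤ a → lam a = cnt l a := by
  induction n with
  | zero =>
    intro lam h1 _ h3
    refine ⟨[], fun a ha => ?_⟩
    induction a, ha using Nat.le_induction with
    | base => simpa [cnt] using h3
    | succ a ha ih =>
      have := h1 a ha
      simp only [cnt, List.countP_nil] at ih ⊢
      omega
  | succ n ih =>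
    intro lam h1 h2 h3
    classical
    have hc := Nat.find_spec h2
    set c := Nat.find h2 with hcdef
    have hc1 : 1 ≤ c := by
      by_contra h
      have := hc 1 (by omega)
      omega
    have hc2 : lam c ≠ 0 := by
      intro h
      apply Nat.find_min h2 (m := c - 1) (by omega)
      intro a ha
      rcases eq_or_lt_of_le (show c ≤ a by omega) with h4 | h4
      · rw [← h4, h]
      · exact hc a h4
    have hmono : ∀ a b, 1 ≤ a → a ≤ b → lam b ≤ lam a := by
      intro a b ha hab
      induction b, hab using Nat.le_induction with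
      | base => exact le_rfl
      | succ b hb ih => exact (h1 b (by omega)).trans ih
    have hpos : ∀ a, 1 ≤ a → a ≤ c → 1 ≤ lam a := fun a ha hac => by
      have := hmono a c ha hac
      omega
    obtain ⟨l, hl⟩ := ih (fun a => lam a - 1) (fun a ha => by have := h1 a ha; omega)
      ⟨c, fun a ha => by simp [hc a ha]⟩ (by simp [h3])
    refine ⟨c :: l, fun a ha => ?_⟩
    rw [cnt_cons, ← hl a ha]
    split_ifs with h
    · have := hpos a ha h
      omega
    · simp [hc a (by omega)]

lemma IsHW.exists_list [CharZero F] {f : RR F} {lam : ℕ → ℕ} (hf : IsHW f lam) (h0 : f ≠ 0) :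
    ∃ l : List ℕ, IsHW f (cnt l) := by
  obtain ⟨l, hl⟩ := Sp.exists_list _ lam (fun a ha => hf.dominant h0 ha)
    (hf.eventually_zero h0) rfl
  exact ⟨l, hf.1, fun a ha => by rw [hf.2 a ha, hl a ha]⟩

lemma IsHW.mul {f g : RR F} {lam mu : ℕ → ℕ} (hf : IsHW f lam) (hg : IsHW g mu) :
    IsHW (f * g) (fun a => lam a + mu a) := by
  refine ⟨fun a b ha hab => ?_, fun a ha => ?_⟩
  · rw [Derivation.leibniz, hf.1 a b ha hab, hg.1 a b ha hab]; simp
  · rw [Derivation.leibniz, hf.2 a ha, hg.2 a ha]
    simp only [smul_eq_mul, mul_smul_comm]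
    push_cast
    rw [mul_comm g f, add_smul, add_comm]

end Pool.Agent.H237Z.Sp
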