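import Pool.Agent.H237Z.Sp.Pf

open MvPolynomial

namespace Pool.Agent.H237Z.Sp

variable {F : Type*} [Field F]

/-- polynomials of degree at most one in the variables with indices at most `N` -/
noncomputable def LL (F : Type*) [Field F] (N : ℕ) : Submodule F (RR F) :=
  Submodule.span F (insert 1 (X '' {q : Pr | q.1.2 ≤ N}))

lemma finite_pairs (N : ℕ) : {q : Pr | q.1.2 ≤ N}.Finite := by
  refine Set.Finite.of_finite_image (f := Subtype.val) ?_ Subtype.val_injective.injOn
  refine (Set.finite_Iic ((N, N) : ℕ × ℕ)).subset ?_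
  rintro _ ⟨q, hq, rfl⟩
  have := q.2
  simp only [Set.mem_ofPred_eq] at hq
  exact ⟨by simp only; omega, hq⟩

lemma LL_fg (N : ℕ) : (LL F N).FG :=
  Submodule.fg_span (((finite_pairs N).image _).insert _)

lemma one_mem_LL (N : ℕ) : (1 : RR F) ∈ LL F N := Submodule.subset_span (Set.mem_insert _ _)

lemma X_mem_LL {N : ℕ} {q : Pr} (h : q.1.2 ≤ N) : (X q : RR F) ∈ LL F N :=
  Submodule.subset_span (Set.mem_insert_of_mem _ ⟨q, h, rfl⟩)

lemma om_mem_LL {i j N : ℕ} (hi : i ≤ N) (hj : j ≤ N) : om F i j ∈ LL F N := by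
  unfold om
  split_ifs
  · exact X_mem_LL hj
  · exact neg_mem (X_mem_LL hi)
  · exact zero_mem _

lemma E_mem_LL {a b N : ℕ} (ha : a ≤ N) {f : RR F} (hf : f ∈ LL F N) : E F a b f ∈ LL F N := by
  induction hf using Submodule.span_induction with
  | zero => simp
  | add x y _ _ hx hy => rw [map_add]; exact add_mem hx hy
  | smul c x _ hx => rw [Derivation.map_smul]; exact Submodule.smul_mem _ _ hx
  | mem x hx =>
    rcases hx with rfl | ⟨q, hq, rfl⟩
    · simp
    · have := q.2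
      simp only [Set.mem_ofPred_eq] at hq
      rw [E_X]
      refine add_mem ?_ ?_ <;> split_ifs
      · exact om_mem_LL ha hq
      · exact zero_mem _
      · exact om_mem_LL (by omega) ha
      · exact zero_mem _

lemma E_mem_pow {a b N d : ℕ} (ha : a ≤ N) {f : RR F} (hf : f ∈ LL F N ^ d) :
    E F a b f ∈ LL F N ^ d := by
  induction d generalizing f with
  | zero =>
    rw [pow_zero] at hf ⊢
    obtain ⟨c, rfl⟩ := Submodule.mem_one.1 hf
    simp
  | succ d ih =>
    rw [pow_succ] at hf ⊢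
    refine Submodule.mul_induction_on hf (fun x hx y hy => ?_) (fun x y hx hy => ?_)
    · rw [Derivation.leibniz, smul_eq_mul, smul_eq_mul, mul_comm y]
      exact add_mem (Submodule.mul_mem_mul hx (E_mem_LL ha hy)) (Submodule.mul_mem_mul (ih hx) hy)
    · rw [map_add]; exact add_mem hx hy

lemma pow_mono {N d e : ℕ} (h : d ≤ e) : LL F N ^ d ≤ LL F N ^ e := by
  induction e, h using Nat.le_induction with
  | base => exact le_rfl
  | succ e _ ih =>
    intro f hf
    rw [pow_succ, ← mul_one f]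
    exact Submodule.mul_mem_mul (ih hf) (one_mem_LL N)

lemma exists_pow {N : ℕ} {f : RR F} (hf : f ∈ SP F N) : ∃ d, f ∈ LL F N ^ d := by
  induction hf using Algebra.adjoin_induction with
  | mem x hx =>
    obtain ⟨q, hq, rfl⟩ := hx
    exact ⟨1, by rw [pow_one]; exact X_mem_LL hq⟩
  | algebraMap c => exact ⟨0, by rw [pow_zero]; exact Submodule.algebraMap_mem c⟩
  | add x y _ _ hx hy =>
    obtain ⟨d, hd⟩ := hx
    obtain ⟨e, he⟩ := hy
    exact ⟨d + e, add_mem (pow_mono (by omega) hd) (pow_mono (by omega) he)⟩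
  | mul x y _ _ hx hy =>
    obtain ⟨d, hd⟩ := hx
    obtain ⟨e, he⟩ := hy
    exact ⟨d + e, by rw [pow_add]; exact Submodule.mul_mem_mul hd he⟩

lemma pow_le_SP {N d : ℕ} {f : RR F} (hf : f ∈ LL F N ^ d) : f ∈ SP F N := by
  refine Submodule.pow_induction_on_left (LL F N) (C := fun f => f ∈ SP F N)
    (fun r => Subalgebra.algebraMap_mem _ r) (fun x y hx hy => add_mem hx hy)
    (fun m hm x hx => mul_mem ?_ hx) hf
  induction hm using Submodule.span_induction with
  | zero => exact zero_mem _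
  | add x y _ _ hx hy => exact add_mem hx hy
  | smul c x _ hx => exact Subalgebra.smul_mem _ hx _
  | mem x hx =>
    rcases hx with rfl | ⟨q, hq, rfl⟩
    · exact one_mem _
    · exact X_mem_supported.2 hq

lemma exists_SP (f : RR F) : ∃ N, f ∈ SP F N :=
  ⟨f.vars.sup fun q => q.1.2, mem_supported.2 fun _ hq =>
    Finset.le_sup (f := fun q : Pr => q.1.2) hq⟩

lemma E_eq_zero_of_SP {a b N : ℕ} (hb : N < b) {f : RR F} (hf : f ∈ SP F N) : E F a b f = 0 := by
  refine derivation_eq_zero_of_forall_mem_vars fun q hq => ?_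
  have h1 : q.1.2 ≤ N := mem_supported.1 hf hq
  have := q.2
  rw [E_X, if_neg (by omega), if_neg (by omega), add_zero]

lemma E_mem_SP {a b N : ℕ} (ha : a ≤ N) {f : RR F} (hf : f ∈ SP F N) : E F a b f ∈ SP F N := by
  obtain ⟨d, hd⟩ := exists_pow hf
  exact pow_le_SP (E_mem_pow ha hd)

lemma dom_eq_zero_of_SP {i j N : ℕ} (h : N < i ∨ N < j) {f : RR F} (hf : f ∈ SP F N) :
    dom F i j f = 0 := by
  refine derivation_eq_zero_of_forall_mem_vars fun q hq => ?_
  have h1 : q.1.2 ≤ N := mem_supported.1 hf hq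
  have := q.2
  rw [← om_X, dom_om, if_neg (by omega), if_neg (by omega), sub_zero]

/-- stable under `gl N` -/
def StabN (N : ℕ) (W : Submodule F (RR F)) : Prop :=
  ∀ a b, 1 ≤ a → a ≤ N → 1 ≤ b → b ≤ N → ∀ f ∈ W, E F a b f ∈ W

lemma StabN.inf {N : ℕ} {W W' : Submodule F (RR F)} (h : StabN N W) (h' : StabN N W') :
    StabN N (W ⊓ W') :=
  fun a b h1 h2 h3 h4 f hf => ⟨h a b h1 h2 h3 h4 f hf.1, h' a b h1 h2 h3 h4 f hf.2⟩

lemma stabN_pow (N d : ℕ) : StabN N (LL F N ^ d) :=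
  fun _ _ _ h2 _ _ _ hf => E_mem_pow h2 hf

lemma stabN_SP (N : ℕ) : StabN N (Subalgebra.toSubmodule (SP F N)) :=
  fun _ _ _ h2 _ _ _ hf => E_mem_SP h2 hf

lemma StabN.up {N : ℕ} {W : Submodule F (RR F)} (h : StabN N W) (hW : ∀ f ∈ W, f ∈ SP F N) :
    Up W := by
  intro a b ha hab f hf
  by_cases hb : b ≤ N
  · exact h a b ha (by omega) (by omega) hb f hf
  · rw [E_eq_zero_of_SP (not_le.1 hb) (hW f hf)]
    exact zero_mem _

/-- orthogonal complement -/
def orth (W : Submodule F (RR F)) : Submodule F (RR F) where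
  carrier := {g | ∀ w ∈ W, B F w g = 0}
  add_mem' := fun hx hy w hw => by rw [map_add, hx w hw, hy w hw, add_zero]
  zero_mem' := fun w _ => map_zero _
  smul_mem' := fun c x hx w hw => by rw [map_smul, hx w hw, smul_zero]

lemma StabN.orth {N : ℕ} {W : Submodule F (RR F)} (h : StabN N W) : StabN N (orth W) := by
  intro a b h1 h2 h3 h4 f hf w hw
  rw [← B_E]
  exact hf _ (h b a h3 h4 h1 h2 w hw)

lemma inf_orth [CharZero F] {N : ℕ} {W : Submodule F (RR F)} (h : StabN N W)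
    (hW : ∀ f ∈ W, f ∈ SP F N) : W ⊓ orth W = ⊥ := by
  by_contra hne
  obtain ⟨l, h1, h2⟩ := exists_hh ((h.inf h.orth).up fun f hf => hW f hf.1) hne
  exact B_hh_ne_zero l (h2 _ h1)

lemma exists_decomp {W : Submodule F (RR F)} (hfg : W.FG) (h : W ⊓ orth W = ⊥) (f : RR F) :
    ∃ w ∈ W, f - w ∈ orth W := by
  have : Module.Finite F W := Module.Finite.iff_fg.2 hfg
  let ψ : RR F →ₗ[F] Module.Dual F W := (B F).flip.domRestrict₂ W
  let φ : W →ₗ[F] Module.Dual F W := ψ.domRestrict W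
  have hinj : Function.Injective φ := by
    rw [injective_iff_map_eq_zero]
    intro w hw
    have : (w : RR F) ∈ W ⊓ orth W := ⟨w.2, fun w' hw' => LinearMap.congr_fun hw ⟨w', hw'⟩⟩
    rw [h] at this
    exact Subtype.ext this
  have hsurj : Function.Surjective φ :=
    (LinearMap.injective_iff_surjective_of_finrank_eq_finrank
      (Subspace.dual_finrank_eq).symm).1 hinj
  obtain ⟨w, hw⟩ := hsurj (ψ f)
  refine ⟨w, w.2, fun w' hw' => ?_⟩
  have := LinearMap.congr_fun hw ⟨w', hw'⟩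
  change B F w' w = B F w' f at this
  rw [map_sub, this, sub_self]

lemma hw_split {W W' : Submodule F (RR F)} (hW : Up W) (hW' : Up W') (h : W ⊓ W' = ⊥)
    {w w' : RR F} (hw : w ∈ W) (hw' : w' ∈ W') {lam : ℕ → ℕ} (hg : IsHW (w + w') lam) :
    IsHW w' lam := by
  refine ⟨fun a b ha hab => ?_, fun a ha => ?_⟩
  · have h1 := hg.1 a b ha hab
    rw [map_add, add_eq_zero_iff_neg_eq] at h1
    have : E F a b w' ∈ W ⊓ W' :=
      ⟨h1 ▸ neg_mem (hW a b ha hab.le w hw), hW' a b ha hab.le w' hw'⟩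
    rwa [h] at this
  · have h1 := hg.2 a ha
    have h2 : E F a a w' - (lam a : F) • w' = - (E F a a w - (lam a : F) • w) := by
      rw [map_add, smul_add] at h1
      linear_combination h1
    have : E F a a w' - (lam a : F) • w' ∈ W ⊓ W' :=
      ⟨h2 ▸ neg_mem (sub_mem (hW a a ha le_rfl w hw) (W.smul_mem _ hw)),
        sub_mem (hW' a a ha le_rfl w' hw') (W'.smul_mem _ hw')⟩
    rw [h] at this
    exact sub_eq_zero.1 this

/-- ideals stable under `gl ∞` -/
def Stab (K : Ideal (RR F)) : Prop := ∀ a b, 1 ≤ a → 1 ≤ b → ∀ f ∈ K, E F a b f ∈ K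

lemma Stab.stabN {K : Ideal (RR F)} (h : Stab K) (N : ℕ) : StabN N (K.restrictScalars F) :=
  fun a b h1 _ h3 _ f hf => h a b h1 h3 f hf

lemma le_of_hh [CharZero F] {J K : Ideal (RR F)} (hJ : Stab J) (hK : Stab K)
    (h : ∀ l, hh F l ∈ J → hh F l ∈ K) : J ≤ K := by
  intro f hf
  obtain ⟨N, hN⟩ := exists_SP f
  obtain ⟨d, hd⟩ := exists_pow hN
  let U : Submodule F (RR F) := J.restrictScalars F ⊓ LL F N ^ d
  let U' : Submodule F (RR F) := K.restrictScalars F ⊓ U
  have hU : StabN N U := (hJ.stabN N).inf (stabN_pow N d)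
  have hU' : StabN N U' := (hK.stabN N).inf hU
  have hfg : U'.FG := ((LL_fg N).pow d).of_le fun x hx => hx.2.2
  obtain ⟨w, hw, hw'⟩ := exists_decomp hfg (inf_orth hU' fun x hx => pow_le_SP hx.2.2) f
  have h1 : U ⊓ orth U' = ⊥ := by
    by_contra hne
    obtain ⟨l, h1, h2⟩ := exists_hh ((hU.inf hU'.orth).up fun x hx => pow_le_SP hx.1.2) hne
    exact B_hh_ne_zero l (h2 _ ⟨h l h1.1, h1⟩)
  have h2 : f - w ∈ U ⊓ orth U' := ⟨sub_mem ⟨hf, hd⟩ hw.2, hw'⟩
  rw [h1, Submodule.mem_bot, sub_eq_zero] at h2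
  rw [h2]
  exact hw.1

lemma E_hh_long [CharZero F] {a b N : ℕ} (h1 : 1 ≤ a) (h2 : a ≤ N) (l : List ℕ)
    (hl : ∀ c ∈ l, N ≤ c) : ∃ κ : F, E F a b (hh F l) = κ • hh F l := by
  induction l with
  | nil => exact ⟨0, by simp [hh_nil]⟩
  | cons c l ih =>
    obtain ⟨κ, hκ⟩ := ih fun c hc => hl c (by simp [hc])
    have hc := hl c (by simp)
    by_cases hab : a = b
    · subst hab
      refine ⟨κ + 1, ?_⟩
      rw [hh_cons, Derivation.leibniz, hκ, E_pf_self h1 (by omega)]
      simp only [smul_eq_mul, mul_smul_comm, add_smul, one_smul, mul_comm]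
    · refine ⟨κ, ?_⟩
      rw [hh_cons, Derivation.leibniz, hκ, E_pf_of_ne hab h1 (by omega)]
      simp only [smul_eq_mul, mul_smul_comm, mul_zero, add_zero]

lemma pderiv_hh [CharZero F] (c : ℕ) (l : List ℕ) (hl : ∀ x ∈ l, x ≤ c + 1) :
    ∃ κ : F, κ ≠ 0 ∧ pderiv (pth (c + 1)) (hh F ((c + 2) :: l)) = κ • hh F (c :: l) := by
  have hSP : hh F ((c + 2) :: l) ∈ SP F (c + 2) := by
    refine hh_mem_SP _ fun x hx => ?_
    rcases List.mem_cons.1 hx with rfl | hx
    · exact le_rfl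
    · exact (hl x hx).trans (by omega)
  have hg := hh_isHW (F := F) ((c + 2) :: l)
  have hp : pderiv (pth (c + 1)) = dom F (c + 1) (c + 2) := (dom_X (pth (c + 1))).symm
  have h1 : IsHW (pderiv (pth (c + 1)) (hh F ((c + 2) :: l))) (cnt (c :: l)) := by
    rw [hp]
    refine ⟨fun a b ha hab => ?_, fun a ha => ?_⟩
    · have := dom_comm (c + 1) (c + 2) b a (hh F ((c + 2) :: l))
      rw [hg.1 a b ha hab, map_zero, zero_sub, neg_eq_iff_eq_neg] at this
      rw [this]
      split_ifs with h1 h2 h2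
      · omega
      · by_cases hb : b = c + 2
        · simp [hb, dom_self]
        · rw [dom_eq_zero_of_SP (Or.inl (by omega)) hSP]; simp
      · rw [dom_eq_zero_of_SP (Or.inr (by omega)) hSP]; simp
      · simp
    · have := dom_comm (c + 1) (c + 2) a a (hh F ((c + 2) :: l))
      rw [hg.2 a ha, Derivation.map_smul, sub_eq_iff_eq_add, ← sub_eq_iff_eq_add'] at this
      rw [← this, cnt_cons, cnt_cons]
      split_ifs with h1 h2 h3 h4 h5 h6 h7 h8 h9 h10 h11 h12 h13 h14 h15 <;>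
        first
        | omega
        | (subst_vars; push_cast; module)
  have h2 : pderiv (pth (c + 1)) (hh F ((c + 2) :: l)) ≠ 0 := by
    obtain ⟨m, hm, hpath⟩ := slice hg.1 (hh_ne_zero _)
    have e1 := hg.deg_eq hm (a := c + 2) (by omega)
    have e2 := hg.deg_eq hm (a := c + 3) (by omega)
    have e3 : cnt l (c + 3) = 0 := by
      rw [cnt, List.countP_eq_zero]
      intro x hx
      have := hl x hx
      simp only [decide_eq_true_eq]
      omega
    rw [deg_path hpath, cnt_cons, if_pos le_rfl] at e1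
    rw [deg_path hpath, cnt_cons, if_neg (by omega), e3] at e2
    have hq1 : Finsupp.single (pth (c + 1)) 1 ≤ m := by
      rw [Finsupp.single_le_iff]
      change m (pth (c + 1)) + m (pth (c + 2)) = _ at e1
      omega
    intro h0
    have := coeff_pderiv (i := pth (c + 1)) (hh F ((c + 2) :: l))
      (m - Finsupp.single (pth (c + 1)) 1)
    rw [h0, coeff_zero, tsub_add_cancel_of_le hq1] at this
    rcases mul_eq_zero.1 this.symm with h3 | h3
    · exact mem_support_iff.1 hm h3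
    · exact Nat.cast_add_one_ne_zero _ h3
  obtain ⟨κ, hκ⟩ := mult_one h1 (hh_isHW (c :: l)) (hh_ne_zero _)
  refine ⟨κ, ?_, hκ⟩
  rintro rfl
  rw [zero_smul] at hκ
  exact h2 hκ

lemma box [CharZero F] {K : Ideal (RR F)} (hK : Stab K) (c : ℕ) (l : List ℕ)
    (h : hh F (c :: l) ∈ K) : hh F ((c + 2) :: l) ∈ K := by
  obtain ⟨l1, l2, hl1, hl2, hperm⟩ : ∃ l1 l2 : List ℕ, (∀ x ∈ l1, x ≤ c + 1) ∧
      (∀ x ∈ l2, c + 2 ≤ x) ∧ (l1 ++ l2).Perm l := by
    refine ⟨l.filter (fun x => x ≤ c + 1), l.filter (fun x => !decide (x ≤ c + 1)), ?_, ?_,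
      List.filter_append_perm _ _⟩
    · intro x hx
      simpa using (List.mem_filter.1 hx).2
    · intro x hx
      have := (List.mem_filter.1 hx).2
      simp at this
      omega
  have e : ∀ x, hh F (x :: l) = hh F (x :: l1) * hh F l2 := by
    intro x
    rw [← hh_append, ← hh_perm (hperm.cons x)]
    rfl
  rw [e] at h ⊢
  let K' : Submodule F (RR F) := (K.restrictScalars F).comap (LinearMap.mulRight F (hh F l2))
  have hK' : StabN (c + 2) K' := by
    intro a b h1 h2 h3 h4 f hf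
    obtain ⟨κ, hκ⟩ := E_hh_long (F := F) (b := b) h1 h2 l2 hl2
    have h5 : f * hh F l2 ∈ K := hf
    have h6 := hK a b h1 h3 _ h5
    rw [Derivation.leibniz, hκ, smul_eq_mul, smul_eq_mul, mul_smul_comm] at h6
    have h7 : κ • (f * hh F l2) ∈ K := by
      rw [Algebra.smul_def]; exact K.mul_mem_left _ h5
    have h8 := sub_mem h6 h7
    rw [add_sub_cancel_left, mul_comm] at h8
    exact h8
  have hSP : ∀ x, x ≤ c + 2 → hh F (x :: l1) ∈ SP F (c + 2) := by
    intro y hy
    refine hh_mem_SP _ fun x hx => ?_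
    rcases List.mem_cons.1 hx with rfl | hx
    · exact hy
    · exact (hl1 x hx).trans (by omega)
  have hX : X (pth (c + 1)) * hh F (c :: l1) ∈ SP F (c + 2) :=
    mul_mem (X_mem_supported.2 (le_refl (c + 2))) (hSP c (by omega))
  obtain ⟨d, hd⟩ := exists_pow hX
  let W : Submodule F (RR F) := K' ⊓ LL F (c + 2) ^ d
  have hW : StabN (c + 2) W := hK'.inf (stabN_pow _ d)
  have hWSP : ∀ x ∈ W, x ∈ SP F (c + 2) := fun x hx => pow_le_SP hx.2
  have hfg : W.FG := ((LL_fg _).pow d).of_le fun x hx => hx.2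
  have hbot := inf_orth hW hWSP
  obtain ⟨w, hw, hw'⟩ := exists_decomp hfg hbot (hh F ((c + 2) :: l1))
  let W' : Submodule F (RR F) := orth W ⊓ Subalgebra.toSubmodule (SP F (c + 2))
  have hW' : Up W' := (hW.orth.inf (stabN_SP _)).up fun x hx => hx.2
  have h1 : IsHW (hh F ((c + 2) :: l1) - w) (cnt ((c + 2) :: l1)) := by
    refine hw_split (hW.up hWSP) hW' ?_ hw ⟨hw', sub_mem (hSP _ le_rfl) (hWSP w hw)⟩ ?_
    · rw [eq_bot_iff, ← hbot]
      exact fun x hx => ⟨hx.1, hx.2.1⟩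
    · rw [add_sub_cancel]
      exact hh_isHW _
  obtain ⟨κ, hκ⟩ := mult_one h1 (hh_isHW _) (hh_ne_zero _)
  by_cases h0 : κ = 0
  · rw [h0, zero_smul, sub_eq_zero] at hκ
    rw [hκ]
    exact hw.1
  · exfalso
    have h2 : X (pth (c + 1)) * hh F (c :: l1) ∈ W := by
      refine ⟨?_, hd⟩
      change X (pth (c + 1)) * hh F (c :: l1) * hh F l2 ∈ K
      rw [mul_assoc]
      exact K.mul_mem_left _ h
    have h3 := hw' _ h2
    obtain ⟨κ', hκ', h4⟩ := pderiv_hh (F := F) c l1 hl1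
    rw [hκ, map_smul, B_X_mul, h4, map_smul, smul_eq_zero, smul_eq_zero] at h3
    rcases h3 with h3 | h3 | h3
    · exact h0 h3
    · exact hκ' h3
    · exact B_hh_ne_zero _ h3

/-- comparison of column lengths -/
def rr (c c' : ℕ) : Prop := ∃ k, c' = c + 2 * k

instance : IsPreorder ℕ rr where
  refl c := ⟨0, rfl⟩
  trans a b c := by
    rintro ⟨k, rfl⟩ ⟨k', rfl⟩
    exact ⟨k + k', by ring⟩

lemma rr_pwo : (Set.univ : Set ℕ).PartiallyWellOrderedOn rr := by
  have h0 : (Set.univ : Set ℕ).PartiallyWellOrderedOn (· ≤ ·) :=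
    Set.partiallyWellOrderedOn_of_wellQuasiOrdered wellQuasiOrdered_le _
  have h1 := h0.image_of_monotone_on (r' := rr) (f := fun n => 2 * n)
    (fun a _ b _ hab => ⟨b - a, by omega⟩)
  have h2 := h0.image_of_monotone_on (r' := rr) (f := fun n => 2 * n + 1)
    (fun a _ b _ hab => ⟨b - a, by omega⟩)
  refine (h1.union h2).mono fun n _ => ?_
  rcases Nat.even_or_odd' n with ⟨k, rfl | rfl⟩
  · exact Or.inl ⟨k, trivial, rfl⟩
  · exact Or.inr ⟨k, trivial, rfl⟩

lemma box_rr [CharZero F] {K : Ideal (RR F)} (hK : Stab K) {c c' : ℕ} (hc : rr c c') (l : List ℕ)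
    (h : hh F (c :: l) ∈ K) : hh F (c' :: l) ∈ K := by
  obtain ⟨k, rfl⟩ := hc
  induction k with
  | zero => exact h
  | succ k ih => exact box hK _ l ih

lemma box_forall [CharZero F] {K : Ideal (RR F)} (hK : Stab K) {l l' : List ℕ}
    (hl : List.Forall₂ rr l l') : ∀ l0, hh F (l ++ l0) ∈ K → hh F (l' ++ l0) ∈ K := by
  induction hl with
  | nil => exact fun _ h => h
  | @cons a b l l' hab _ ih =>
    intro l0 h
    have h1 : hh F (b :: (l ++ l0)) ∈ K := box_rr hK hab _ h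
    rw [← hh_perm (F := F) (List.perm_middle (a := b) (l₁ := l) (l₂ := l0))] at h1
    have h2 := ih _ h1
    rwa [hh_perm (F := F) (List.perm_middle (a := b) (l₁ := l') (l₂ := l0))] at h2

lemma box_sublist [CharZero F] {K : Ideal (RR F)} (hK : Stab K) {l l' : List ℕ}
    (hl : List.SublistForall₂ rr l l') (h : hh F l ∈ K) : hh F l' ∈ K := by
  obtain ⟨l'', h1, h2⟩ := List.sublistForall₂_iff.1 hl
  have h3 := box_forall hK h1 [] (by simpa using h)
  rw [List.append_nil] at h3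
  obtain ⟨l0, h4⟩ := h2.exists_perm_append
  rw [hh_perm h4, hh_append]
  exact K.mul_mem_right _ h3

theorem noeth [CharZero F] {J : Ideal (RR F)} (hJ : Stab J) :
    ∃ s : Finset (RR F), (∀ f ∈ s, f ∈ J) ∧
      ∀ K : Ideal (RR F), Stab K → (∀ f ∈ s, f ∈ K) → J ≤ K := by
  classical
  have h1 : ∃ s : Finset (List ℕ), (∀ l ∈ s, hh F l ∈ J) ∧
      ∀ l', hh F l' ∈ J → ∃ l ∈ s, List.SublistForall₂ rr l l' := by
    by_contra hne
    push Not at hne
    obtain ⟨f, _, hf⟩ := exists_seq_of_forall_finset_exists (fun l => hh F l ∈ J)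
      (fun l l' => ¬ List.SublistForall₂ rr l l') hne
    obtain ⟨m, n, hmn, h⟩ :=
      (Set.PartiallyWellOrderedOn.partiallyWellOrderedOn_sublistForall₂ rr rr_pwo).exists_lt
        (f := f) (fun n x _ => trivial)
    exact hf m n hmn h
  obtain ⟨s, hs, hs'⟩ := h1
  refine ⟨s.image (hh F), ?_, fun K hK h => le_of_hh hJ hK fun l' hl' => ?_⟩
  · intro f hf
    obtain ⟨l, hl, rfl⟩ := Finset.mem_image.1 hf
    exact hs l hl
  · obtain ⟨l, hl, h2⟩ := hs' l' hl'
    exact box_sublist hK h2 (h _ (Finset.mem_image_of_mem _ hl))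

end Pool.Agent.H237Z.Sp
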