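import Pool.Agent.H237Z.Sp.HW
import Pool.Agent.H237Z.Sp.Ext

open MvPolynomial

namespace Pool.Agent.H237Z.Sp

variable {F : Type*} [Field F]

lemma der_prod {ι : Type*} [DecidableEq ι] (D : Derivation F (RR F) (RR F)) (s : Finset ι)
    (f : ι → RR F) : D (∏ i ∈ s, f i) = ∑ i ∈ s, D (f i) * ∏ j ∈ s.erase i, f j := by
  induction s using Finset.induction_on with
  | empty => simp
  | insert a s ha ih =>
    rw [Finset.prod_insert ha, Finset.sum_insert ha, Derivation.leibniz, ih, Finset.erase_insert ha,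
      smul_eq_mul, smul_eq_mul, Finset.mul_sum, add_comm, mul_comm]
    congr 1
    refine Finset.sum_congr rfl fun i hi => ?_
    have hne : a ≠ i := fun h => ha (h ▸ hi)
    rw [Finset.erase_insert_of_ne hne, Finset.prod_insert (fun h => ha (Finset.mem_of_mem_erase h))]
    ring

/-- one term of the Pfaffian -/
noncomputable def TT (F : Type*) [Field F] {k : ℕ} (w : Fin k × Fin 2 → ℕ) : RR F :=
  ∏ i, om F (w (i, 0)) (w (i, 1))

lemma TT_update0 {k : ℕ} (w : Fin k × Fin 2 → ℕ) (i : Fin k) (a : ℕ) :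
    TT F (Function.update w (i, 0) a) =
      om F a (w (i, 1)) * ∏ j ∈ Finset.univ.erase i, om F (w (j, 0)) (w (j, 1)) := by
  rw [TT, ← Finset.mul_prod_erase _ _ (Finset.mem_univ i)]
  congr 1
  · simp
  · refine Finset.prod_congr rfl fun j hj => ?_
    have := Finset.ne_of_mem_erase hj
    simp [this]

lemma TT_update1 {k : ℕ} (w : Fin k × Fin 2 → ℕ) (i : Fin k) (a : ℕ) :
    TT F (Function.update w (i, 1) a) =
      om F (w (i, 0)) a * ∏ j ∈ Finset.univ.erase i, om F (w (j, 0)) (w (j, 1)) := by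
  rw [TT, ← Finset.mul_prod_erase _ _ (Finset.mem_univ i)]
  congr 1
  · simp
  · refine Finset.prod_congr rfl fun j hj => ?_
    have := Finset.ne_of_mem_erase hj
    simp [this]

lemma E_TT {k : ℕ} (w : Fin k × Fin 2 → ℕ) (a b : ℕ) :
    E F a b (TT F w) = ∑ j, if w j = b then TT F (Function.update w j a) else 0 := by
  rw [TT, der_prod, Fintype.sum_prod_type]
  refine Finset.sum_congr rfl fun i _ => ?_
  rw [Fin.sum_univ_two, E_om, TT_update0, TT_update1]
  split_ifs <;> ring

/-- a multiple of the Pfaffian -/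
noncomputable def Pf (F : Type*) [Field F] {k : ℕ} (v : Fin k × Fin 2 → ℕ) : RR F :=
  ∑ σ : Equiv.Perm (Fin k × Fin 2), Equiv.Perm.sign σ • TT F (v ∘ σ)

lemma E_Pf {k : ℕ} (v : Fin k × Fin 2 → ℕ) (a b : ℕ) :
    E F a b (Pf F v) = ∑ j, if v j = b then Pf F (Function.update v j a) else 0 := by
  have h1 : ∀ j, (if v j = b then Pf F (Function.update v j a) else 0) =
      ∑ σ : Equiv.Perm (Fin k × Fin 2), Equiv.Perm.sign σ •
        (if v j = b then TT F (Function.update v j a ∘ σ) else 0) := by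
    intro j
    split_ifs
    · rfl
    · simp
  simp only [h1]
  rw [Finset.sum_comm, Pf, map_sum]
  refine Finset.sum_congr rfl fun σ _ => ?_
  rw [← Finset.smul_sum, Units.smul_def, Units.smul_def, map_zsmul, E_TT]
  congr 1
  rw [← Equiv.sum_comp σ (fun j => if v j = b then TT F (Function.update v j a ∘ σ) else 0)]
  refine Finset.sum_congr rfl fun j _ => ?_
  rw [Function.update_comp_eq_of_injective _ σ.injective]
  rfl

lemma Pf_eq_zero [CharZero F] {k : ℕ} (v : Fin k × Fin 2 → ℕ) {i j : Fin k × Fin 2}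
    (hij : i ≠ j) (h : v i = v j) : Pf F v = 0 := by
  have h1 : Pf F v = - Pf F v := by
    conv_lhs => rw [Pf, ← Equiv.sum_comp (Equiv.mulLeft (Equiv.swap i j))]
    rw [Pf, ← Finset.sum_neg_distrib]
    refine Finset.sum_congr rfl fun σ _ => ?_
    have h2 : v ∘ (Equiv.swap i j * σ : Equiv.Perm _) = v ∘ σ := by
      ext x
      simp only [Function.comp, Equiv.Perm.coe_mul]
      exact Equiv.apply_swap_eq_self h _
    simp only [Equiv.coe_mulLeft]
    rw [h2, Equiv.Perm.sign_mul, Equiv.Perm.sign_swap hij]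
    simp
  have h2 : (2 : F) • Pf F v = 0 := by
    rw [two_smul]
    exact add_eq_zero_iff_eq_neg.2 h1
  exact (smul_eq_zero.1 h2).resolve_left two_ne_zero

lemma Pf_mem_ZR {k : ℕ} (v : Fin k × Fin 2 → ℕ) : Pf F v ∈ ZR F := by
  refine sum_mem fun σ _ => ?_
  rw [Units.smul_def]
  exact zsmul_mem (prod_mem fun i _ => om_mem_ZR _ _) _

/-- polynomials in the variables with indices at most `N` -/
noncomputable def SP (F : Type*) [Field F] (N : ℕ) : Subalgebra F (RR F) :=
  supported F {q : Pr | q.1.2 ≤ N}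

lemma om_mem_SP {i j N : ℕ} (hi : i ≤ N) (hj : j ≤ N) : om F i j ∈ SP F N := by
  unfold om
  split_ifs
  · exact X_mem_supported.2 hj
  · exact neg_mem (X_mem_supported.2 hi)
  · exact zero_mem _

lemma Pf_mem_SP {k N : ℕ} (v : Fin k × Fin 2 → ℕ) (hv : ∀ j, v j ≤ N) : Pf F v ∈ SP F N := by
  refine sum_mem fun σ _ => ?_
  rw [Units.smul_def]
  exact zsmul_mem (prod_mem fun i _ => om_mem_SP (hv _) (hv _)) _

/-- product of two Grassmann generators, as a central element -/
noncomputable def zz (F : Type*) [Field F] (i j : ℕ) :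
    Subalgebra.center F (ExteriorAlgebra F (ℕ →₀ F)) :=
  ⟨ExteriorAlgebra.ι F (Finsupp.single i 1) * ExteriorAlgebra.ι F (Finsupp.single j 1),
    Subalgebra.mem_center_iff.2 fun g => iota_iota_comm _ _ g⟩

lemma aeval_om (i j : ℕ) :
    aeval (fun q : Pr => zz F q.1.1 q.1.2) (om F i j) = zz F i j := by
  unfold om
  split_ifs with h1 h2
  · simp
  · simp only [map_neg, aeval_X]
    apply Subtype.ext
    simp only [zz, Subalgebra.coe_neg]
    exact (iota_anti _ _).symm
  · have : i = j := by omega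
    subst this
    apply Subtype.ext
    simp [zz]

lemma aeval_TT {k : ℕ} (w : Fin k × Fin 2 → ℕ) :
    ((aeval (fun q : Pr => zz F q.1.1 q.1.2) (TT F w) :
      Subalgebra.center F (ExteriorAlgebra F (ℕ →₀ F))) : ExteriorAlgebra F (ℕ →₀ F)) =
    ((ExteriorAlgebra.ιMulti F (k * 2)).domDomCongr finProdFinEquiv.symm)
      (fun j => (Finsupp.single (w j) 1 : ℕ →₀ F)) := by
  rw [TT, map_prod]
  simp only [aeval_om]
  rw [← List.prod_ofFn, AlternatingMap.domDomCongr_apply, ExteriorAlgebra.ιMulti_apply,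
    List.ofFn_mul, List.prod_flatten, List.map_ofFn]
  change (Subalgebra.val _) (List.prod _) = _
  rw [map_list_prod, List.map_ofFn]
  congr 2
  ext i
  have e : ∀ (t : Fin 2) (h : (i : ℕ) * 2 + t < k * 2),
      finProdFinEquiv.symm (⟨i * 2 + t, h⟩ : Fin (k * 2)) = (i, t) := by
    intro t h
    rw [Equiv.symm_apply_eq]
    apply Fin.ext
    simp [finProdFinEquiv]
    ring
  simp only [Function.comp, e]
  simp [zz, List.ofFn_succ]

lemma Pf_ne_zero [CharZero F] {k : ℕ} (v : Fin k × Fin 2 → ℕ) (hv : Function.Injective v) :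
    Pf F v ≠ 0 := by
  intro h
  have h1 := congrArg (fun f => ((aeval (fun q : Pr => zz F q.1.1 q.1.2) f :
      Subalgebra.center F (ExteriorAlgebra F (ℕ →₀ F))) : ExteriorAlgebra F (ℕ →₀ F))) h
  simp only [Pf, map_sum, map_zero, Units.smul_def, map_zsmul, AddSubmonoidClass.coe_finsetSum,
    AddSubgroupClass.coe_zsmul, aeval_TT, ZeroMemClass.coe_zero] at h1
  have h2 : ∀ σ : Equiv.Perm (Fin k × Fin 2), ((Equiv.Perm.sign σ : ℤˣ) : ℤ) •
      ((ExteriorAlgebra.ιMulti F (k * 2)).domDomCongr finProdFinEquiv.symm)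
        (fun j => (Finsupp.single ((v ∘ σ) j) 1 : ℕ →₀ F)) =
      ((ExteriorAlgebra.ιMulti F (k * 2)).domDomCongr finProdFinEquiv.symm)
        (fun j => (Finsupp.single (v j) 1 : ℕ →₀ F)) := by
    intro σ
    have := ((ExteriorAlgebra.ιMulti F (k * 2)).domDomCongr finProdFinEquiv.symm).map_perm
      (fun j => (Finsupp.single (v j) 1 : ℕ →₀ F)) σ
    erw [this]
    rw [← Units.smul_def, smul_smul, Int.units_mul_self, one_smul]
  simp only [h2, Finset.sum_const] at h1
  rw [← Nat.cast_smul_eq_nsmul F, smul_eq_zero] at h1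
  rcases h1 with h3 | h3
  · exact Finset.card_ne_zero.2 Finset.univ_nonempty (Nat.cast_eq_zero.1 h3)
  · rw [AlternatingMap.domDomCongr_apply] at h3
    exact iotaMulti_ne_zero (k * 2) (v ∘ finProdFinEquiv.symm)
      (hv.comp finProdFinEquiv.symm.injective) h3

/-- the indices of the column of length `c` -/
def vv (c : ℕ) : Fin ((c + 1) / 2) × Fin 2 → ℕ := fun j => (c + 1) % 2 + 2 * j.1 + j.2

lemma vv_inj (c : ℕ) : Function.Injective (vv c) := by
  rintro ⟨i, t⟩ ⟨i', t'⟩ h
  simp only [vv] at h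
  have := t.2
  have := t'.2
  apply Prod.ext <;> apply Fin.ext <;> simp only <;> omega

lemma vv_le (c : ℕ) (j) : vv c j ≤ c := by
  have := j.1.2
  have := j.2.2
  simp only [vv]
  omega

lemma vv_surj {c a : ℕ} (h1 : 1 ≤ a) (h2 : a ≤ c) : ∃ j, vv c j = a := by
  refine ⟨(⟨(a - (c + 1) % 2) / 2, by omega⟩, ⟨(a - (c + 1) % 2) % 2, by omega⟩), ?_⟩
  simp only [vv]
  omega

/-- highest weight vector of a column -/
noncomputable def pf (F : Type*) [Field F] (c : ℕ) : RR F := Pf F (vv c)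

lemma E_pf_of_lt {a b c : ℕ} (h : c < b) : E F a b (pf F c) = 0 := by
  rw [pf, E_Pf]
  refine Finset.sum_eq_zero fun j _ => if_neg ?_
  have := vv_le c j
  omega

lemma E_pf_of_ne [CharZero F] {a b c : ℕ} (h : a ≠ b) (h1 : 1 ≤ a) (h2 : a ≤ c) :
    E F a b (pf F c) = 0 := by
  rw [pf, E_Pf]
  refine Finset.sum_eq_zero fun j _ => ?_
  split_ifs with h3
  · obtain ⟨j', hj'⟩ := vv_surj h1 h2
    have hne : j ≠ j' := by
      rintro rfl
      omega
    refine Pf_eq_zero _ hne ?_
    rw [Function.update_self, Function.update_of_ne hne.symm, hj']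
  · rfl

lemma E_pf_self {a c : ℕ} (h1 : 1 ≤ a) (h2 : a ≤ c) : E F a a (pf F c) = pf F c := by
  obtain ⟨j, hj⟩ := vv_surj h1 h2
  rw [pf, E_Pf, Finset.sum_eq_single j]
  · rw [if_pos hj, ← hj, Function.update_eq_self]
  · intro j' _ hne
    rw [if_neg]
    intro h
    exact hne (vv_inj c (h.trans hj.symm))
  · intro h; exact absurd (Finset.mem_univ _) h

lemma pf_isHW [CharZero F] (c : ℕ) : IsHW (pf F c) (fun a => if a ≤ c then 1 else 0) := by
  refine ⟨fun a b ha hab => ?_, fun a ha => ?_⟩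
  · by_cases h : a ≤ c
    · exact E_pf_of_ne hab.ne ha h
    · exact E_pf_of_lt (by omega)
  · by_cases h : a ≤ c
    · simp [h, E_pf_self ha h]
    · simp [h, E_pf_of_lt (not_le.1 h)]

/-- highest weight vector attached to a list of column lengths -/
noncomputable def hh (F : Type*) [Field F] (l : List ℕ) : RR F := (l.map (pf F)).prod

lemma hh_nil : hh F [] = 1 := rfl

lemma hh_cons (c : ℕ) (l : List ℕ) : hh F (c :: l) = pf F c * hh F l := by simp [hh]

lemma hh_append (l l' : List ℕ) : hh F (l ++ l') = hh F l * hh F l' := by simp [hh]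

lemma hh_perm {l l' : List ℕ} (h : l.Perm l') : hh F l = hh F l' := (h.map _).prod_eq

lemma hh_isHW [CharZero F] (l : List ℕ) : IsHW (hh F l) (cnt l) := by
  induction l with
  | nil => exact ⟨fun a b _ _ => by simp [hh_nil], fun a _ => by simp [hh_nil, cnt]⟩
  | cons c l ih =>
    have := (pf_isHW (F := F) c).mul ih
    rw [hh_cons]
    convert this using 2
    exact cnt_cons _ _ _

lemma hh_ne_zero [CharZero F] (l : List ℕ) : hh F l ≠ 0 := by
  induction l with
  | nil => exact one_ne_zero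
  | cons c l ih => rw [hh_cons]; exact mul_ne_zero (Pf_ne_zero _ (vv_inj c)) ih

lemma hh_mem_ZR (l : List ℕ) : hh F l ∈ ZR F := by
  induction l with
  | nil => exact one_mem _
  | cons c l ih => rw [hh_cons]; exact mul_mem (Pf_mem_ZR _) ih

lemma hh_mem_SP {N : ℕ} (l : List ℕ) (h : ∀ c ∈ l, c ≤ N) : hh F l ∈ SP F N := by
  induction l with
  | nil => exact one_mem _
  | cons c l ih =>
    rw [hh_cons]
    exact mul_mem (Pf_mem_SP _ fun j => (vv_le c j).trans (h c (by simp)))
      (ih fun c hc => h c (by simp [hc]))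

lemma B_hh_ne_zero [CharZero F] (l : List ℕ) : B F (hh F l) (hh F l) ≠ 0 :=
  B_self_ne_zero (hh_mem_ZR l) (hh_ne_zero l)

lemma exists_hh [CharZero F] {W : Submodule F (RR F)} (hW : Up W) (h : W ≠ ⊥) :
    ∃ l, hh F l ∈ W := by
  obtain ⟨g, hg, h0, lam, hl⟩ := exists_hw hW h
  obtain ⟨l, hl'⟩ := hl.exists_list h0
  obtain ⟨c, hc⟩ := mult_one (hh_isHW l) hl' h0
  exact ⟨l, hc ▸ W.smul_mem c hg⟩

end Pool.Agent.H237Z.Sp
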