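import Mathlib

open MvPolynomial

namespace Pool.Agent.H237Z.Sp

/-- ordered pairs of indices -/
abbrev Pr := {p : ℕ × ℕ // p.1 < p.2}

abbrev RR (F : Type*) [Field F] := MvPolynomial Pr F

variable {F : Type*} [Field F]

/-- the generic skew matrix -/
noncomputable def om (F : Type*) [Field F] (i j : ℕ) : RR F :=
  if h : i < j then X ⟨(i, j), h⟩ else if h : j < i then - X ⟨(j, i), h⟩ else 0

lemma om_X (q : Pr) : om F q.1.1 q.1.2 = X q := by
  simp [om, q.2]

lemma om_swap (i j : ℕ) : om F j i = - om F i j := by
  unfold om
  rcases lt_trichotomy i j with h | h | h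
  · simp [h, h.not_gt]
  · simp [h]
  · simp [h, h.not_gt]

lemma om_self (i : ℕ) : om F i i = 0 := by simp [om]

/-- the derivation replacing the index `b` by the index `a` -/
noncomputable def E (F : Type*) [Field F] (a b : ℕ) : Derivation F (RR F) (RR F) :=
  mkDerivation F fun q : Pr =>
    (if q.1.1 = b then om F a q.1.2 else 0) + (if q.1.2 = b then om F q.1.1 a else 0)

lemma E_X (a b : ℕ) (q : Pr) : E F a b (X q) =
    (if q.1.1 = b then om F a q.1.2 else 0) + (if q.1.2 = b then om F q.1.1 a else 0) := by
  simp [E, mkDerivation_X]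

lemma E_om (a b i j : ℕ) : E F a b (om F i j) =
    (if i = b then om F a j else 0) + (if j = b then om F i a else 0) := by
  rcases lt_trichotomy i j with h | h | h
  · have := E_X (F := F) a b ⟨(i, j), h⟩
    rw [← om_X] at this
    exact this
  · subst h
    rw [om_self, map_zero]
    split_ifs
    · rw [om_swap a i]; ring
    · simp
  · have := E_X (F := F) a b ⟨(j, i), h⟩
    rw [← om_X] at this
    simp only at this
    rw [om_swap j i, map_neg, this]
    rw [om_swap a i, om_swap j a]
    split_ifs <;> ring

lemma E_comm (a b c d : ℕ) (f : RR F) : E F a b (E F c d f) - E F c d (E F a b f) =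
    (if b = c then E F a d f else 0) - (if d = a then E F c b f else 0) := by
  have : ⁅E F a b, E F c d⁆ =
      (if b = c then E F a d else 0) - (if d = a then E F c b else 0) := by
    apply derivation_ext
    intro q
    rw [Derivation.commutator_apply, ← om_X]
    generalize q.1.1 = i
    generalize q.1.2 = j
    simp only [Derivation.sub_apply, apply_ite (fun D : Derivation F (RR F) (RR F) => D (om F i j)),
      E_om, map_add, apply_ite (E F a b), apply_ite (E F c d), map_zero, Derivation.zero_apply]
    simp only [@eq_comm _ b c, @eq_comm _ d a]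
    split_ifs <;> ring
  have h2 := congrArg (fun D : Derivation F (RR F) (RR F) => D f) this
  simp only [Derivation.commutator_apply, Derivation.sub_apply] at h2
  rw [h2]
  congr 1 <;> split_ifs <;> simp

/-- the adjoint of multiplication by `om i j` -/
noncomputable def dom (F : Type*) [Field F] (i j : ℕ) : Derivation F (RR F) (RR F) :=
  if h : i < j then pderiv ⟨(i, j), h⟩ else if h : j < i then - pderiv ⟨(j, i), h⟩ else 0

lemma dom_X (q : Pr) : dom F q.1.1 q.1.2 = pderiv q := by
  simp [dom, q.2]

lemma dom_swap (i j : ℕ) : dom F j i = - dom F i j := by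
  unfold dom
  rcases lt_trichotomy i j with h | h | h
  · simp [h, h.not_gt]
  · simp [h]
  · simp [h, h.not_gt]

lemma dom_self (i : ℕ) : dom F i i = 0 := by simp [dom]

lemma dom_om_aux (q : Pr) (k l : ℕ) : pderiv q (om F k l) =
    (if q.1.1 = k ∧ q.1.2 = l then 1 else 0) - (if q.1.1 = l ∧ q.1.2 = k then 1 else 0) := by
  obtain ⟨⟨i, j⟩, h⟩ := q
  simp only at h ⊢
  unfold om
  rcases lt_trichotomy k l with h' | h' | h'
  · have : ¬ (l = i ∧ k = j) := by omega
    simp [h', pderiv_X, Pi.single_apply, this, eq_comm]
  · simp [h']
  · have : ¬ (k = i ∧ l = j) := by omega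
    simp [h', h'.not_gt, pderiv_X, Pi.single_apply, this, eq_comm]

lemma dom_om (i j k l : ℕ) : dom F i j (om F k l) =
    (if i = k ∧ j = l then 1 else 0) - (if i = l ∧ j = k then 1 else 0) := by
  rcases lt_trichotomy i j with h | h | h
  · have := dom_om_aux (F := F) ⟨(i, j), h⟩ k l
    rw [← dom_X] at this
    exact this
  · subst h
    simp [dom_self, and_comm]
  · have := dom_om_aux (F := F) ⟨(j, i), h⟩ k l
    rw [← dom_X] at this
    simp only at this
    rw [dom_swap j i, Derivation.neg_apply, this]
    simp [and_comm]

lemma dom_comm (i j a b : ℕ) (f : RR F) : dom F i j (E F b a f) - E F b a (dom F i j f) =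
    (if i = b then dom F a j f else 0) + (if j = b then dom F i a f else 0) := by
  have : ⁅dom F i j, E F b a⁆ =
      (if i = b then dom F a j else 0) + (if j = b then dom F i a else 0) := by
    apply derivation_ext
    intro q
    rw [Derivation.commutator_apply, ← om_X]
    generalize q.1.1 = k
    generalize q.1.2 = l
    simp only [Derivation.add_apply, apply_ite (fun D : Derivation F (RR F) (RR F) => D (om F k l)),
      E_om, dom_om, map_add, map_sub, apply_ite (E F b a), apply_ite (dom F i j), map_zero,
      Derivation.zero_apply, Derivation.map_one_eq_zero]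
    by_cases h1 : i = b <;> by_cases h2 : j = b <;> by_cases h3 : k = a <;> by_cases h4 : l = a <;>
      by_cases h5 : i = k <;> by_cases h6 : j = l <;> by_cases h7 : i = l <;>
      by_cases h8 : j = k <;> simp_all [eq_comm]
  have h2 := congrArg (fun D : Derivation F (RR F) (RR F) => D f) this
  simp only [Derivation.commutator_apply, Derivation.add_apply] at h2
  rw [h2]
  congr 1 <;> split_ifs <;> simp

/-- multi-factorial -/
def fac (m : Pr →₀ ℕ) : ℕ := m.prod fun _ k => k.factorial

lemma fac_ne_zero (m : Pr →₀ ℕ) : fac m ≠ 0 :=
  Finset.prod_ne_zero_iff.2 fun _ _ => Nat.factorial_ne_zero _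

lemma fac_add_single (m : Pr →₀ ℕ) (p : Pr) : fac (m + Finsupp.single p 1) = fac m * (m p + 1) := by
  classical
  unfold fac
  rw [Finsupp.prod_of_support_subset (m + Finsupp.single p 1) (s := insert p m.support)
    _ _ (by simp), Finsupp.prod_of_support_subset m (s := insert p m.support)
    (Finset.subset_insert _ _) _ (by simp)]
  · rw [← Finset.mul_prod_erase _ _ (Finset.mem_insert_self p _),
      ← Finset.mul_prod_erase _ (fun x => (m x).factorial) (Finset.mem_insert_self p _)]
    have : ∏ x ∈ (insert p m.support).erase p, ((m + Finsupp.single p 1 : Pr →₀ ℕ) x).factorial =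
        ∏ x ∈ (insert p m.support).erase p, (m x).factorial := by
      refine Finset.prod_congr rfl fun x hx => ?_
      have := Finset.ne_of_mem_erase hx
      simp [Finsupp.single_apply, this.symm]
    rw [this]
    simp [Nat.factorial_succ]
    ring
  · intro x hx
    have := Finsupp.support_add hx
    simp only [Finset.mem_union] at this
    rcases this with h | h
    · exact Finset.mem_insert_of_mem h
    · have := Finsupp.support_single_subset h
      simp at this
      simp [this]

/-- the Fischer form -/
noncomputable def B (F : Type*) [Field F] : RR F →ₗ[F] RR F →ₗ[F] F :=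
  (basisMonomials Pr F).constr F fun m => (fac m : F) • lcoeff F m

lemma B_monomial (m : Pr →₀ ℕ) (c : F) (g : RR F) :
    B F (monomial m c) g = c * fac m * coeff m g := by
  have h1 : (monomial m c : RR F) = c • basisMonomials Pr F m := by
    simp [coe_basisMonomials, smul_monomial]
  rw [h1, map_smul, B, Module.Basis.constr_basis]
  simp [mul_assoc]

lemma B_eq (f g : RR F) : B F f g = ∑ m ∈ f.support, coeff m f * fac m * coeff m g := by
  conv_lhs => rw [f.as_sum]
  rw [map_sum, LinearMap.sum_apply]
  exact Finset.sum_congr rfl fun m _ => B_monomial _ _ _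

lemma B_symm (f g : RR F) : B F f g = B F g f := by
  classical
  induction f using MvPolynomial.induction_on' with
  | add p q hp hq => simp [hp, hq]
  | monomial m c =>
    induction g using MvPolynomial.induction_on' with
    | add p q hp hq => rw [map_add, map_add, LinearMap.add_apply, hp, hq]
    | monomial m' c' =>
      rw [B_monomial, B_monomial, coeff_monomial, coeff_monomial]
      by_cases h : m = m'
      · subst h; simp; ring
      · simp [h, Ne.symm h]

lemma B_X_mul (p : Pr) (f g : RR F) : B F (X p * f) g = B F f (pderiv p g) := by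
  induction f using MvPolynomial.induction_on' with
  | add p q hp hq => simp [mul_add, hp, hq]
  | monomial m c =>
    have : (X p * monomial m c : RR F) = monomial (m + Finsupp.single p 1) c := by
      rw [X, monomial_mul, one_mul, add_comm]
    rw [this, B_monomial, B_monomial, coeff_pderiv, fac_add_single]
    push_cast
    ring

lemma B_om_mul (i j : ℕ) (f g : RR F) : B F (om F i j * f) g = B F f (dom F i j g) := by
  rcases lt_trichotomy i j with h | h | h
  · have := B_X_mul ⟨(i, j), h⟩ f g
    rwa [← om_X, ← dom_X] at this
  · subst h; simp [om_self, dom_self]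
  · have := B_X_mul ⟨(j, i), h⟩ f g
    rw [← om_X, ← dom_X] at this
    simp only at this
    rw [om_swap j i, dom_swap j i, neg_mul, map_neg, LinearMap.neg_apply, this]
    simp

lemma constantCoeff_om (i j : ℕ) : constantCoeff (om F i j) = 0 := by
  unfold om; split_ifs <;> simp

lemma constantCoeff_E (a b : ℕ) (g : RR F) : constantCoeff (E F a b g) = 0 := by
  induction g using MvPolynomial.induction_on with
  | C c => simp
  | add p q hp hq => simp [hp, hq]
  | mul_X p q hp =>
    rw [Derivation.leibniz, E_X]
    simp only [smul_eq_mul, map_add, map_mul, constantCoeff_X, zero_mul, add_zero,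
      apply_ite constantCoeff, constantCoeff_om, map_zero, ite_self, mul_zero]

lemma B_E (a b : ℕ) (f g : RR F) : B F (E F a b f) g = B F f (E F b a g) := by
  induction f using MvPolynomial.induction_on generalizing g with
  | C c =>
    rw [derivation_C, map_zero, LinearMap.zero_apply, ← monomial_zero', B_monomial]
    have := constantCoeff_E b a g
    rw [constantCoeff_eq] at this
    simp [this]
  | add p q hp hq => simp [hp, hq]
  | mul_X p q hp =>
    rw [Derivation.leibniz, smul_eq_mul, smul_eq_mul, map_add, LinearMap.add_apply, B_X_mul, hp,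
      mul_comm p (X q), B_X_mul, E_X, ← dom_X]
    have := dom_comm q.1.1 q.1.2 a b g
    rw [sub_eq_iff_eq_add] at this
    rw [this, map_add, map_add, mul_add, map_add, LinearMap.add_apply]
    congr 2
    · split_ifs
      · rw [mul_comm, B_om_mul]
      · simp
    · split_ifs
      · rw [mul_comm, B_om_mul]
      · simp

/-- polynomials with integer coefficients -/
noncomputable def ZR (F : Type*) [Field F] : Subring (RR F) :=
  (MvPolynomial.map (σ := Pr) (Int.castRingHom F)).range

lemma om_mem_ZR (i j : ℕ) : om F i j ∈ ZR F := by
  unfold om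
  split_ifs
  · exact ⟨X _, map_X _ _⟩
  · exact neg_mem ⟨X _, map_X _ _⟩
  · exact zero_mem _

lemma B_self_ne_zero [CharZero F] {f : RR F} (hf : f ∈ ZR F) (h0 : f ≠ 0) : B F f f ≠ 0 := by
  obtain ⟨g, rfl⟩ := hf
  rw [B_eq]
  simp only [coeff_map, eq_intCast]
  have : (∑ m ∈ (MvPolynomial.map (Int.castRingHom F) g).support,
      ((coeff m g : ℤ) : F) * fac m * ((coeff m g : ℤ) : F)) =
      ((∑ m ∈ (MvPolynomial.map (Int.castRingHom F) g).support,
        coeff m g * fac m * coeff m g : ℤ) : F) := by
    push_cast; rfl
  rw [this, Int.cast_ne_zero]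
  apply ne_of_gt
  apply Finset.sum_pos
  · intro m hm
    rw [mem_support_iff, coeff_map] at hm
    have h1 : coeff m g ≠ 0 := by
      intro h; simp [h] at hm
    have h2 : (0 : ℤ) < fac m := by exact_mod_cast Nat.pos_of_ne_zero (fac_ne_zero m)
    have h3 : 0 < coeff m g * coeff m g := mul_self_pos.2 h1
    nlinarith [mul_pos h3 h2]
  · exact support_nonempty.2 h0

end Pool.Agent.H237Z.Sp
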