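import Pool.Agent.H237Z.Sp.Var

open MvPolynomial
open scoped TensorProduct

namespace Pool.Agent.H237Z.Sp

set_option linter.unusedSectionVars false

universe u

variable {F : Type u} [Field F]

lemma det_eq_zero_of_minors [CharZero F] {T : Type*} [CommRing T] [Algebra F T] {n : Type*}
    [Fintype n] [DecidableEq n] (M : Matrix n n T) {i i' : n} (hne : i ≠ i')
    (h : ∀ j j', M i j * M i' j' = M i' j * M i j') : M.det = 0 := by
  have h1 := Matrix.det_permute (Equiv.swap i i') M
  rw [Equiv.Perm.sign_swap hne] at h1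
  have h2 : (M.submatrix (Equiv.swap i i') id).det = M.det := by
    rw [Matrix.det_apply, Matrix.det_apply]
    refine Finset.sum_congr rfl fun σ _ => ?_
    congr 1
    have hne' : σ.symm i' ∈ Finset.univ.erase (σ.symm i) := by
      simp [hne.symm]
    rw [← Finset.mul_prod_erase _ _ (Finset.mem_univ (σ.symm i)), ← Finset.mul_prod_erase _ _ hne',
      ← Finset.mul_prod_erase _ (fun j => M (σ j) j) (Finset.mem_univ (σ.symm i)),
      ← Finset.mul_prod_erase _ (fun j => M (σ j) j) hne', ← mul_assoc, ← mul_assoc]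
    congr 1
    · simp [h]
    · refine Finset.prod_congr rfl fun j hj => ?_
      have e1 : σ j ≠ i' := fun e => Finset.ne_of_mem_erase hj (by simp [← e])
      have e2 : σ j ≠ i := fun e =>
        Finset.ne_of_mem_erase (Finset.mem_of_mem_erase hj) (by simp [← e])
      simp [Equiv.swap_apply_of_ne_of_ne e2 e1]
  have h3 : (2 : F) • M.det = 0 := by
    rw [two_smul]
    rw [h2] at h1
    simp only [Units.val_neg, Units.val_one, Int.cast_neg, Int.cast_one, neg_mul, one_mul] at h1
    exact add_eq_zero_iff_eq_neg.2 h1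
  exact (smul_eq_zero.1 h3).resolve_left two_ne_zero

lemma sum_pow_eq_zero {T : Type*} [CommRing T] {ι : Type*} (s : Finset ι) (u : ι → T)
    (h : ∀ i, u i * u i = 0) : (∑ i ∈ s, u i) ^ (s.card + 1) = 0 := by
  classical
  induction s using Finset.induction_on with
  | empty => simp
  | insert a s ha ih =>
    rw [Finset.sum_insert ha, Finset.card_insert_of_notMem ha]
    have := (Commute.all (u a) (∑ i ∈ s, u i)).add_pow_add_eq_zero_of_pow_eq_zero
      (m := 2) (by rw [pow_two, h]) ih
    rwa [show 2 + (s.card + 1) - 1 = s.card + 1 + 1 by omega] at this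

lemma det_nilpotent [CharZero F] {T : Type*} [CommRing T] [Algebra F T] {n κ : Type*}
    [Fintype n] [DecidableEq n] [Fintype κ] (hc : Fintype.card κ < Fintype.card n)
    (R O : n → κ → n → T) (hR : ∀ i i' t j j', R i t j * R i' t j' = R i' t j * R i t j')
    (hO : ∀ i t j, O i t j * O i t j = 0) (M : Matrix n n T)
    (hM : ∀ i j, M i j = ∑ t, R i t j + ∑ t, O i t j) :
    M.det ^ (Fintype.card (n × κ × n) + 1) = 0 := by
  classical
  let I : Ideal T := Ideal.span (Set.range fun x : n × κ × n => O x.1 x.2.1 x.2.2)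
  have h1 : Matrix.det (fun i => ∑ t, R i t : Matrix n n T) = 0 := by
    have := (Matrix.detRowAlternating (n := n) (R := T)).toMultilinearMap.map_sum
      (α := fun _ => κ) R
    refine Eq.trans this ?_
    refine Finset.sum_eq_zero fun p _ => ?_
    obtain ⟨i, i', hne, hp⟩ := Fintype.exists_ne_map_eq_of_card_lt p hc
    refine det_eq_zero_of_minors (F := F) (fun i => R i (p i)) hne fun j j' => ?_
    rw [← hp]
    exact hR _ _ _ _ _
  have h2 : M.det ∈ I := by
    rw [← Ideal.Quotient.eq_zero_iff_mem, ← map_zero (Ideal.Quotient.mk I), ← h1,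
      RingHom.map_det, RingHom.map_det]
    congr 1
    ext i j
    simp only [RingHom.mapMatrix_apply, Matrix.map_apply, hM, Finset.sum_apply]
    rw [Ideal.Quotient.eq, add_sub_cancel_left]
    exact sum_mem fun t _ => Ideal.subset_span ⟨(i, t, j), rfl⟩
  obtain ⟨c, hc⟩ := (Submodule.mem_span_range_iff_exists_fun T).1 h2
  rw [← hc]
  refine sum_pow_eq_zero _ _ fun x => ?_
  simp only [smul_eq_mul]
  rw [mul_mul_mul_comm, hO, mul_zero]

variable {A : Type u} [NonUnitalNonAssocRing A] [Module F A] [IsScalarTower F A A]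
  [SMulCommClass F A A]

/-- The Grassmann algebra on countably many generators. -/
abbrev Grass (F : Type u) [Field F] : Type u := ExteriorAlgebra F (ℕ →₀ F)

/-- The even (`i = 0`) and the odd (`i = 1`) part of the Grassmann algebra. -/
noncomputable def grassPart (F : Type u) [Field F] (i : ZMod 2) : Submodule F (Grass F) :=
  CliffordAlgebra.evenOdd (0 : QuadraticForm F (ℕ →₀ F)) i

theorem envSpace_mul_mem (gr : SuperGrading F A)
    (x y : Grass F ⊗[F] A) (hx : x ∈ envSpace (grassPart F) gr.part)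
    (hy : y ∈ envSpace (grassPart F) gr.part) : x * y ∈ envSpace (grassPart F) gr.part := by
  induction hx using Submodule.span_induction with
  | zero => simp
  | add x x' _ _ h h' => rw [add_mul]; exact add_mem h h'
  | smul c x _ h => rw [smul_mul_assoc]; exact Submodule.smul_mem _ _ h
  | mem x hx =>
    induction hy using Submodule.span_induction with
    | zero => simp
    | add y y' _ _ h h' => rw [mul_add]; exact add_mem h h'
    | smul c y _ h => rw [mul_smul_comm]; exact Submodule.smul_mem _ _ h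
    | mem y hy =>
      obtain ⟨i, g, a, hg, ha, rfl⟩ := hx
      obtain ⟨j, g', a', hg', ha', rfl⟩ := hy
      refine Submodule.subset_span ⟨i + j, g * g', a * a', ?_, gr.mul_mem i j a a' ha ha', ?_⟩
      · exact CliffordAlgebra.evenOdd_mul_le _ i j (Submodule.mul_mem_mul hg hg')
      · exact Algebra.TensorProduct.tmul_mul_tmul _ _ _ _

/-- The Grassmann envelope `G₀ ⊗ A₀ + G₁ ⊗ A₁`, a subalgebra of `G ⊗ A`. -/
noncomputable def envelope (gr : SuperGrading F A) : NonUnitalSubalgebra F (Grass F ⊗[F] A) :=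
  (envSpace (grassPart F) gr.part).toNonUnitalSubalgebra (envSpace_mul_mem gr)

lemma identitiesOn_eq (E : NonUnitalSubalgebra F A) :
    identitiesOn F A E = identities F E := by
  ext f
  rw [mem_ids]
  constructor
  · intro h a
    have := h ((NonUnitalSubalgebraClass.subtype E).comp (FreeNonUnitalNonAssocAlgebra.lift F a))
      (fun i => by simp)
    exact Subtype.ext this
  · intro h φ hφ
    have h1 : φ = (NonUnitalSubalgebraClass.subtype E).comp (FreeNonUnitalNonAssocAlgebra.lift F
        fun i => (⟨φ (FreeNonUnitalNonAssocAlgebra.of F i), hφ i⟩ : E)) := by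
      apply FreeNonUnitalNonAssocAlgebra.hom_ext
      intro i
      simp
    rw [h1, NonUnitalAlgHom.comp_apply, h, map_zero]

lemma extEnv_eq (gr : SuperGrading F A) :
    extEnvIdentities (ℕ →₀ F) gr.part = identities F (envelope gr) :=
  identitiesOn_eq (envelope gr)

lemma tmul_cancel {g : Grass F} (hg : g ≠ 0) {a b : A} (h : g ⊗ₜ[F] a = g ⊗ₜ[F] b) : a = b := by
  obtain ⟨φ, hφ⟩ := Module.Projective.exists_dual_eq_one F hg
  have := congrArg (fun x => TensorProduct.lid F A (LinearMap.rTensor A φ x)) h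
  simpa [hφ] using this

lemma tmul_mem_env (gr : SuperGrading F A) {i : ZMod 2} {g : Grass F} {a : A}
    (hg : g ∈ grassPart F i) (ha : a ∈ gr.part i) : g ⊗ₜ[F] a ∈ envelope gr :=
  Submodule.subset_span ⟨i, g, a, hg, ha, rfl⟩

lemma exists_parts (gr : SuperGrading F A) (a : A) :
    ∃ a0 ∈ gr.part 0, ∃ a1 ∈ gr.part 1, a0 + a1 = a := by
  have : a ∈ gr.part 0 ⊔ gr.part 1 := by rw [gr.isCompl.sup_eq_top]; trivial
  exact Submodule.mem_sup.1 this

/-- span of the products of homogeneous elements, of total parity `i` -/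
def sqPart (gr : SuperGrading F A) (i : ZMod 2) : Submodule F A :=
  Submodule.span F {z | ∃ (j k : ZMod 2) (a b : A),
    a ∈ gr.part j ∧ b ∈ gr.part k ∧ j + k = i ∧ z = a * b}

lemma sqPart_le (gr : SuperGrading F A) (i : ZMod 2) : sqPart gr i ≤ gr.part i := by
  refine Submodule.span_le.2 ?_
  rintro _ ⟨j, k, a, b, ha, hb, rfl, rfl⟩
  exact gr.mul_mem _ _ _ _ ha hb

/-- elements commuting with the envelope -/
def cent (gr : SuperGrading F A) : Submodule F (Grass F ⊗[F] A) where
  carrier := {x | ∀ y ∈ envelope gr, x * y = y * x}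
  add_mem' := fun hx hy z hz => by rw [add_mul, mul_add, hx z hz, hy z hz]
  zero_mem' := fun z _ => by simp
  smul_mem' := fun c x hx z hz => by rw [smul_mul_assoc, mul_smul_comm, hx z hz]

lemma mul_mem_cent (gr : SuperGrading F A) (h : Good (envelope gr)) {x y : Grass F ⊗[F] A}
    (hx : x ∈ envelope gr) (hy : y ∈ envelope gr) : x * y ∈ cent gr :=
  fun z hz => congrArg Subtype.val (h.1 ⟨x, hx⟩ ⟨y, hy⟩ ⟨z, hz⟩)

/-- Grassmann generators -/
noncomputable def ee (F : Type u) [Field F] (i : ℕ) : Grass F :=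
  ExteriorAlgebra.ι F (Finsupp.single i 1)

lemma ee_mem (i : ℕ) : ee F i ∈ grassPart F 1 := CliffordAlgebra.ι_mem_evenOdd_one _ _

lemma one_mem_grass : (1 : Grass F) ∈ grassPart F 0 :=
  CliffordAlgebra.one_le_evenOdd_zero _ (Submodule.mem_one.2 ⟨1, map_one _⟩)

lemma ee_three : ee F 0 * ee F 1 * ee F 2 ≠ 0 := by
  have := iotaMulti_ne_zero (F := F) 3 (fun i => i) Fin.val_injective
  rw [ExteriorAlgebra.ιMulti_apply] at this
  simpa [List.ofFn_succ, ee, mul_assoc] using this

lemma odd_odd_comm (gr : SuperGrading F A) (h : Good (envelope gr)) {a b : A}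
    (ha : a ∈ gr.part 1) (hb : b ∈ gr.part 1) (c : A) : a * b * c = c * (a * b) := by
  have h1 := mul_mem_cent gr h (tmul_mem_env gr (ee_mem 0) ha) (tmul_mem_env gr (ee_mem 1) hb)
  obtain ⟨c0, h0, c1, h1', rfl⟩ := exists_parts gr c
  have e0 := h1 _ (tmul_mem_env gr one_mem_grass h0)
  have e1 := h1 _ (tmul_mem_env gr (ee_mem 2) h1')
  simp only [Algebra.TensorProduct.tmul_mul_tmul, mul_one, one_mul] at e0 e1
  have e2 : ee F 2 * (ee F 0 * ee F 1) = ee F 0 * ee F 1 * ee F 2 := iota_iota_comm _ _ _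
  rw [e2] at e1
  rw [mul_add, add_mul, tmul_cancel (left_ne_zero_of_mul ee_three) e0, tmul_cancel ee_three e1]

lemma tmul_mem_cent (gr : SuperGrading F A) (h : Good (envelope gr)) {i : ZMod 2} {g : Grass F}
    (hg : g ∈ grassPart F i) {z : A} (hz : z ∈ sqPart gr i) : g ⊗ₜ[F] z ∈ cent gr := by
  induction hz using Submodule.span_induction with
  | zero => simp
  | add x y _ _ hx hy => rw [TensorProduct.tmul_add]; exact add_mem hx hy
  | smul c x _ hx => rw [TensorProduct.tmul_smul]; exact Submodule.smul_mem _ _ hx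
  | mem z hz =>
    obtain ⟨j, k, a, b, ha, hb, rfl, rfl⟩ := hz
    have hk : ∀ k : ZMod 2, k = 0 ∨ k = 1 := by decide
    rcases hk k with rfl | rfl
    · rw [add_zero] at hg
      have := mul_mem_cent gr h (tmul_mem_env gr hg ha) (tmul_mem_env gr one_mem_grass hb)
      rwa [Algebra.TensorProduct.tmul_mul_tmul, mul_one] at this
    · rcases hk j with rfl | rfl
      · rw [zero_add] at hg
        have := mul_mem_cent gr h (tmul_mem_env gr one_mem_grass ha) (tmul_mem_env gr hg hb)
        rwa [Algebra.TensorProduct.tmul_mul_tmul, one_mul] at this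
      · have hg' : g ∈ grassPart F 0 := hg
        intro y hy
        clear hy
        induction y using TensorProduct.induction_on with
        | zero => simp
        | add x y hx hy => rw [mul_add, add_mul, hx, hy]
        | tmul g' c =>
          rw [Algebra.TensorProduct.tmul_mul_tmul, Algebra.TensorProduct.tmul_mul_tmul,
            odd_odd_comm gr h ha hb, even_comm g hg' g']

lemma part_decomp (gr : SuperGrading F A) {κ : Type*} (v w : κ → A)
    (hv : ∀ t, v t ∈ gr.part 0) (hw : ∀ t, w t ∈ gr.part 1)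
    (hgen : NonUnitalAlgebra.adjoin F (Set.range fun t => v t + w t) = ⊤) :
    gr.part 0 ≤ Submodule.span F (Set.range v) ⊔ sqPart gr 0 ∧
      gr.part 1 ≤ Submodule.span F (Set.range w) ⊔ sqPart gr 1 := by
  have h1 : ∀ a : A, a ∈ (Submodule.span F (Set.range v) ⊔ sqPart gr 0) ⊔
      (Submodule.span F (Set.range w) ⊔ sqPart gr 1) := by
    intro a
    have ha : a ∈ NonUnitalAlgebra.adjoin F (Set.range fun t => v t + w t) := by
      rw [hgen]; trivial
    induction ha using NonUnitalAlgebra.adjoin_induction with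
    | mem x hx =>
      obtain ⟨t, rfl⟩ := hx
      exact Submodule.add_mem_sup (Submodule.mem_sup_left (Submodule.subset_span ⟨t, rfl⟩))
        (Submodule.mem_sup_left (Submodule.subset_span ⟨t, rfl⟩))
    | add x y _ _ hx hy => exact add_mem hx hy
    | zero => exact zero_mem _
    | smul c x _ hx => exact Submodule.smul_mem _ _ hx
    | mul x y _ _ _ _ =>
      obtain ⟨x0, hx0, x1, hx1, rfl⟩ := exists_parts gr x
      obtain ⟨y0, hy0, y1, hy1, rfl⟩ := exists_parts gr y
      have : (x0 + x1) * (y0 + y1) = (x0 * y0 + x1 * y1) + (x0 * y1 + x1 * y0) := by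
        rw [add_mul, mul_add, mul_add]; abel
      rw [this]
      refine Submodule.add_mem_sup (Submodule.mem_sup_right (add_mem ?_ ?_))
        (Submodule.mem_sup_right (add_mem ?_ ?_))
      · exact Submodule.subset_span ⟨0, 0, _, _, hx0, hy0, rfl, rfl⟩
      · exact Submodule.subset_span ⟨1, 1, _, _, hx1, hy1, rfl, rfl⟩
      · exact Submodule.subset_span ⟨0, 1, _, _, hx0, hy1, rfl, rfl⟩
      · exact Submodule.subset_span ⟨1, 0, _, _, hx1, hy0, rfl, rfl⟩
  have h2 : Submodule.span F (Set.range v) ⊔ sqPart gr 0 ≤ gr.part 0 :=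
    sup_le (Submodule.span_le.2 (by rintro _ ⟨t, rfl⟩; exact hv t)) (sqPart_le gr 0)
  have h3 : Submodule.span F (Set.range w) ⊔ sqPart gr 1 ≤ gr.part 1 :=
    sup_le (Submodule.span_le.2 (by rintro _ ⟨t, rfl⟩; exact hw t)) (sqPart_le gr 1)
  constructor
  · intro a ha
    obtain ⟨x, hx, y, hy, rfl⟩ := Submodule.mem_sup.1 (h1 a)
    have : y = 0 := Submodule.disjoint_def.1 gr.isCompl.disjoint y
      ((Submodule.add_mem_iff_right _ (h2 hx)).1 ha) (h3 hy)
    rwa [this, add_zero]
  · intro a ha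
    obtain ⟨x, hx, y, hy, rfl⟩ := Submodule.mem_sup.1 (h1 a)
    have : x = 0 := Submodule.disjoint_def.1 gr.isCompl.disjoint x (h2 hx)
      ((Submodule.add_mem_iff_left _ (h3 hy)).1 ha)
    rwa [this, zero_add]

lemma env_decomp (gr : SuperGrading F A) (h : Good (envelope gr)) {κ : Type*} [Fintype κ]
    (v w : κ → A) (hv : gr.part 0 ≤ Submodule.span F (Set.range v) ⊔ sqPart gr 0)
    (hw : gr.part 1 ≤ Submodule.span F (Set.range w) ⊔ sqPart gr 1)
    (x : Grass F ⊗[F] A) (hx : x ∈ envSpace (grassPart F) gr.part) :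
    ∃ α γ : κ → Grass F, (∀ t, α t ∈ grassPart F 0) ∧ (∀ t, γ t ∈ grassPart F 1) ∧
      x - (∑ t, α t ⊗ₜ[F] v t + ∑ t, γ t ⊗ₜ[F] w t) ∈ cent gr := by
  induction hx using Submodule.span_induction with
  | zero => exact ⟨0, 0, fun _ => zero_mem _, fun _ => zero_mem _, by simp⟩
  | add x y _ _ hx hy =>
    obtain ⟨α, γ, h1, h2, h3⟩ := hx
    obtain ⟨α', γ', h1', h2', h3'⟩ := hy
    refine ⟨α + α', γ + γ', fun t => add_mem (h1 t) (h1' t), fun t => add_mem (h2 t) (h2' t), ?_⟩
    convert add_mem h3 h3' using 1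
    simp only [Pi.add_apply, TensorProduct.add_tmul, Finset.sum_add_distrib]
    abel
  | smul c x _ hx =>
    obtain ⟨α, γ, h1, h2, h3⟩ := hx
    refine ⟨c • α, c • γ, fun t => Submodule.smul_mem _ _ (h1 t),
      fun t => Submodule.smul_mem _ _ (h2 t), ?_⟩
    convert Submodule.smul_mem _ c h3 using 1
    simp only [Pi.smul_apply, smul_sub, smul_add, Finset.smul_sum, TensorProduct.smul_tmul']
  | mem x hx =>
    obtain ⟨i, g, a, hg, ha, rfl⟩ := hx
    have hk : ∀ k : ZMod 2, k = 0 ∨ k = 1 := by decide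
    rcases hk i with rfl | rfl
    · obtain ⟨y, hy, z, hz, rfl⟩ := Submodule.mem_sup.1 (hv ha)
      obtain ⟨c, rfl⟩ := (Submodule.mem_span_range_iff_exists_fun F).1 hy
      refine ⟨fun t => c t • g, 0, fun t => Submodule.smul_mem _ _ hg, fun _ => zero_mem _, ?_⟩
      convert tmul_mem_cent gr h hg hz using 1
      simp [TensorProduct.tmul_add, TensorProduct.tmul_sum, TensorProduct.smul_tmul]
    · obtain ⟨y, hy, z, hz, rfl⟩ := Submodule.mem_sup.1 (hw ha)
      obtain ⟨c, rfl⟩ := (Submodule.mem_span_range_iff_exists_fun F).1 hy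
      refine ⟨0, fun t => c t • g, fun _ => zero_mem _, fun t => Submodule.smul_mem _ _ hg, ?_⟩
      convert tmul_mem_cent gr h hg hz using 1
      simp [TensorProduct.tmul_add, TensorProduct.tmul_sum, TensorProduct.smul_tmul]

lemma gsmul_mul (g : Grass F) (x y : Grass F ⊗[F] A) : (g • x) * y = g • (x * y) := by
  induction x using TensorProduct.induction_on with
  | zero => simp
  | add x x' hx hx' => rw [smul_add, add_mul, add_mul, smul_add, hx, hx']
  | tmul a b =>
    induction y using TensorProduct.induction_on with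
    | zero => simp
    | add y y' hy hy' => rw [mul_add, mul_add, smul_add, hy, hy']
    | tmul c d =>
      simp only [TensorProduct.smul_tmul', Algebra.TensorProduct.tmul_mul_tmul, smul_eq_mul,
        mul_assoc]

lemma mul_gsmul {g : Grass F} (hg : g ∈ grassPart F 0) (x y : Grass F ⊗[F] A) :
    x * (g • y) = g • (x * y) := by
  induction x using TensorProduct.induction_on with
  | zero => simp
  | add x x' hx hx' => rw [add_mul, add_mul, smul_add, hx, hx']
  | tmul a b =>
    induction y using TensorProduct.induction_on with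
    | zero => simp
    | add y y' hy hy' => rw [smul_add, mul_add, mul_add, smul_add, hy, hy']
    | tmul c d =>
      simp only [TensorProduct.smul_tmul', Algebra.TensorProduct.tmul_mul_tmul, smul_eq_mul]
      rw [← mul_assoc, even_comm g hg a, mul_assoc]

lemma mul_gsmul_odd {g : Grass F} (hg : g ∈ grassPart F 1) (x y : Grass F ⊗[F] A) :
    ∃ z, x * (g • y) = g • z := by
  induction x using TensorProduct.induction_on with
  | zero => exact ⟨0, by simp⟩
  | add x x' hx hx' =>
    obtain ⟨z, hz⟩ := hx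
    obtain ⟨z', hz'⟩ := hx'
    exact ⟨z + z', by rw [add_mul, smul_add, hz, hz']⟩
  | tmul a b =>
    induction y using TensorProduct.induction_on with
    | zero => exact ⟨0, by simp⟩
    | add y y' hy hy' =>
      obtain ⟨z, hz⟩ := hy
      obtain ⟨z', hz'⟩ := hy'
      exact ⟨z + z', by rw [smul_add, mul_add, smul_add, hz, hz']⟩
    | tmul c d =>
      obtain ⟨a', ha'⟩ := odd_move g hg a
      refine ⟨(a' * c) ⊗ₜ[F] (b * d), ?_⟩
      simp only [TensorProduct.smul_tmul', Algebra.TensorProduct.tmul_mul_tmul, smul_eq_mul]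
      rw [← mul_assoc, ha', mul_assoc]

lemma tmul_eq_gsmul (g : Grass F) (a : A) : g ⊗ₜ[F] a = g • ((1 : Grass F) ⊗ₜ[F] a) := by
  rw [TensorProduct.smul_tmul', smul_eq_mul, mul_one]

lemma gsmul_sub (g : Grass F) (x y : Grass F ⊗[F] A) : g • (x - y) = g • x - g • y :=
  smul_sub g x y

lemma br_even {g : Grass F} (hg : g ∈ grassPart F 0) (a : A) (y : Grass F ⊗[F] A) :
    br F (g ⊗ₜ[F] a) y = g • br F ((1 : Grass F) ⊗ₜ[F] a) y := by
  rw [br_apply, br_apply, tmul_eq_gsmul g a, gsmul_mul, mul_gsmul hg, ← gsmul_sub, smul_comm]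

lemma br_exchange {g g' : Grass F} (hg : g ∈ grassPart F 0) (hg' : g' ∈ grassPart F 0) (a : A)
    (y y' : Grass F ⊗[F] A) : jor (br F (g ⊗ₜ[F] a) y) (br F (g' ⊗ₜ[F] a) y') =
      jor (br F (g' ⊗ₜ[F] a) y) (br F (g ⊗ₜ[F] a) y') := by
  simp only [br_even hg, br_even hg', jor, gsmul_mul, mul_gsmul hg, mul_gsmul hg', smul_smul,
    even_comm g hg g']

lemma br_odd_sq [CharZero F] {g : Grass F} (hg : g ∈ grassPart F 1) (a : A)
    (y : Grass F ⊗[F] A) : br F (g ⊗ₜ[F] a) y * br F (g ⊗ₜ[F] a) y = 0 := by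
  obtain ⟨z, hz⟩ : ∃ z, br F (g ⊗ₜ[F] a) y = g • z := by
    obtain ⟨z, hz⟩ := mul_gsmul_odd hg y ((1 : Grass F) ⊗ₜ[F] a)
    refine ⟨(2 : F)⁻¹ • ((1 : Grass F) ⊗ₜ[F] a * y - z), ?_⟩
    rw [br_apply, tmul_eq_gsmul g a, gsmul_mul, hz, ← gsmul_sub, smul_comm]
  obtain ⟨z', hz'⟩ := mul_gsmul_odd hg z z
  rw [hz, gsmul_mul, hz', smul_smul, odd_sq g hg, zero_smul]

lemma coe_br (gr : SuperGrading F A) (x y : envelope gr) :
    ((br F x y : envelope gr) : Grass F ⊗[F] A) = br F (x : Grass F ⊗[F] A) y := rfl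

lemma coe_jor (gr : SuperGrading F A) (x y : envelope gr) :
    ((jor x y : envelope gr) : Grass F ⊗[F] A) = jor (x : Grass F ⊗[F] A) y := rfl

lemma br_congr {x x' : A} (h : ∀ y, (x - x') * y = y * (x - x')) (y : A) :
    br F x y = br F x' y := by
  have := br_central (F := F) h y
  rwa [map_sub, LinearMap.sub_apply, sub_eq_zero] at this

/-- the generic determinant -/
noncomputable def DD (F : Type u) [Field F] (n : ℕ) : RR F :=
  Matrix.det (fun i j : Fin n => om F (i + 1) (n + j + 1) : Matrix (Fin n) (Fin n) (RR F))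

lemma DD_ne_zero (n : ℕ) : DD F n ≠ 0 := by
  intro h
  have h1 := congrArg (aeval fun q : Pr => if q.1.2 = q.1.1 + n then (1 : F) else 0) h
  rw [DD, AlgHom.map_det, map_zero] at h1
  have h2 : (aeval fun q : Pr => if q.1.2 = q.1.1 + n then (1 : F) else 0).mapMatrix
      (fun i j : Fin n => om F (i + 1) (n + j + 1) : Matrix (Fin n) (Fin n) (RR F)) = 1 := by
    ext i j
    have hi := i.2
    have e : (i : ℕ) + 1 < n + j + 1 := by omega
    have e2 : (n + j + 1 = i + 1 + n) ↔ i = j := by
      rw [Fin.ext_iff]; omega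
    simp only [AlgHom.mapMatrix_apply, Matrix.map_apply, om, e, dif_pos, aeval_X, e2,
      Matrix.one_apply]
  rw [h2, Matrix.det_one] at h1
  exact one_ne_zero h1

lemma DD_pow_mem [CharZero F] (gr : SuperGrading F A) (h : Good (envelope gr)) (s : Finset A)
    (hs : NonUnitalAlgebra.adjoin F (s : Set A) = ⊤) : ∃ n N, DD F n ^ N ∈ II F h := by
  classical
  choose p0 hp0 p1 hp1 hp using exists_parts gr
  have hgen : NonUnitalAlgebra.adjoin F (Set.range fun t : s => p0 t + p1 t) = ⊤ := by
    rw [← hs]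
    congr 1
    ext a
    simp [hp]
  obtain ⟨hv, hw⟩ := part_decomp gr (fun t : s => p0 t) (fun t : s => p1 t)
    (fun t => hp0 t) (fun t => hp1 t) hgen
  refine ⟨s.card + 1, Fintype.card (Fin (s.card + 1) × s × Fin (s.card + 1)) + 1, ?_⟩
  rw [mem_II]
  intro a
  choose α γ hα hγ hc using fun i => env_decomp gr h _ _ hv hw (a i) (a i).2
  rw [map_pow, DD, AlgHom.map_det]
  refine det_nilpotent (F := F) (κ := s) (n := Fin (s.card + 1)) (by simp)
    (fun i t j => jj F h (br F ⟨α i t ⊗ₜ[F] p0 t, tmul_mem_env gr (hα i t) (hp0 t)⟩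
      (a (s.card + 1 + j))))
    (fun i t j => jj F h (br F ⟨γ i t ⊗ₜ[F] p1 t, tmul_mem_env gr (hγ i t) (hp1 t)⟩
      (a (s.card + 1 + j)))) ?_ ?_ _ ?_
  · intro i i' t j j'
    rw [jj_mul, jj_mul]
    congr 2
    apply Subtype.ext
    simp only [coe_jor, coe_br]
    exact br_exchange (hα i t) (hα i' t) _ _ _
  · intro i t j
    rw [jj_mul, map_eq_zero_iff _ (jj_injective h), smul_eq_zero]
    right
    apply Subtype.ext
    rw [coe_jor, coe_br, jor, br_odd_sq (hγ i t), add_zero]
    rfl
  · intro i j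
    simp only [AlgHom.mapMatrix_apply, Matrix.map_apply, ev_om]
    rw [← map_sum, ← map_sum, ← map_add, ← LinearMap.sum_apply, ← LinearMap.sum_apply,
      ← LinearMap.add_apply, ← map_sum, ← map_sum, ← map_add]
    congr 1
    refine br_congr (fun y => Subtype.ext ?_) _
    have := hc i y y.2
    simpa using this

theorem not_finite [CharZero F] : ¬ HasFiniteBasicSuperrank F (SS F) := by
  rintro ⟨A, _, _, _, _, gr, ⟨s, hs⟩, hV⟩
  rw [extEnv_eq] at hV
  have h := good_iff.1 ((hV (envelope gr)).2 subset_rfl)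
  have h' := (hV (Mod F)).1 (good_iff.2 good_Mod)
  obtain ⟨n, N, hD⟩ := DD_pow_mem gr h s hs
  obtain ⟨f, hf⟩ := exists_preimage (DD F n ^ N)
  rw [constantCoeff_II h hD, map_zero, sub_zero] at hf
  have h1 : f ∈ identities F (envelope gr) := by
    rw [mem_identities_iff h, hf]
    exact hD
  have h2 : pp F f = 0 := (mem_ids _).1 (h' h1) (gen F)
  rw [h2, map_zero] at hf
  exact pow_ne_zero N (DD_ne_zero n) hf.symm

end Pool.Agent.H237Z.Sp
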