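import Pool.Agent.H237Z.Sp.Noeth
import Pool.Agent.H237Z.Sp.Defs

open MvPolynomial

namespace Pool.Agent.H237Z.Sp

set_option linter.unusedSectionVars false

universe u

variable {F : Type u} [Field F]

lemma FN_induction {P : FN F → Prop} (h1 : ∀ i, P (FreeNonUnitalNonAssocAlgebra.of F i))
    (h0 : P 0) (hadd : ∀ x y, P x → P y → P (x + y)) (hsmul : ∀ (c : F) x, P x → P (c • x))
    (hmul : ∀ x y, P x → P y → P (x * y)) (f : FN F) : P f := by
  let S : NonUnitalSubalgebra F (FN F) :=
    { carrier := {f | P f}
      add_mem' := fun hx hy => hadd _ _ hx hy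
      zero_mem' := h0
      mul_mem' := fun hx hy => hmul _ _ hx hy
      smul_mem' := fun c x hx => hsmul c x hx }
  let φ : FN F →ₙₐ[F] S := FreeNonUnitalNonAssocAlgebra.lift F
    fun i => ⟨FreeNonUnitalNonAssocAlgebra.of F i, h1 i⟩
  have : (NonUnitalSubalgebraClass.subtype S).comp φ = NonUnitalAlgHom.id F _ := by
    apply FreeNonUnitalNonAssocAlgebra.hom_ext
    intro i
    simp [φ]
  have h2 : ((φ f : S) : FN F) = f := DFunLike.congr_fun this f
  rw [← h2]
  exact (φ f).2

/-- the `i`-th variable -/
noncomputable def xx (F : Type u) [Field F] (i : ℕ) : FN F := FreeNonUnitalNonAssocAlgebra.of F i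

/-- the symmetrised product -/
def jor {B : Type*} [Mul B] [Add B] (x y : B) : B := x * y + y * x

/-- the defining identities of the variety -/
def SS (F : Type u) [Field F] : Set (FN F) :=
  {xx F 0 * xx F 1 * xx F 2 - xx F 2 * (xx F 0 * xx F 1),
    jor (jor (xx F 0) (xx F 1)) (xx F 2) - jor (xx F 0) (jor (xx F 1) (xx F 2))}

/-- the algebras of the variety -/
def Good (B : Type*) [NonUnitalNonAssocRing B] : Prop :=
  (∀ x y z : B, x * y * z = z * (x * y)) ∧ ∀ x y z : B, jor (jor x y) z = jor x (jor y z)

section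

variable {B : Type u} [NonUnitalNonAssocRing B] [Module F B] [IsScalarTower F B B]
  [SMulCommClass F B B]

lemma mem_ids (f : FN F) : f ∈ identities F B ↔
    ∀ a : ℕ → B, FreeNonUnitalNonAssocAlgebra.lift F a f = 0 := by
  constructor
  · intro h a
    exact h _ fun _ => trivial
  · intro h φ _
    have := h ((FreeNonUnitalNonAssocAlgebra.lift F).symm φ)
    rwa [Equiv.apply_symm_apply] at this

lemma good_iff : SS F ⊆ identities F B ↔ Good B := by
  constructor
  · intro h
    refine ⟨fun x y z => ?_, fun x y z => ?_⟩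
    · have := (mem_ids _).1 (h (Set.mem_insert _ _))
        (fun n => if n = 0 then x else if n = 1 then y else z)
      simpa [xx, sub_eq_zero] using this
    · have := (mem_ids _).1 (h (Set.mem_insert_of_mem _ rfl))
        (fun n => if n = 0 then x else if n = 1 then y else z)
      simpa [xx, jor, sub_eq_zero] using this
  · rintro h f (rfl | rfl) <;> rw [mem_ids] <;> intro a
    · simpa [xx, sub_eq_zero] using h.1 _ _ _
    · simpa [xx, jor, sub_eq_zero] using h.2 _ _ _

/-- the algebra with the symmetrised product -/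
def Plus (F : Type u) [Field F] {B : Type u} [NonUnitalNonAssocRing B] (_h : Good B) : Type u := B

instance (h : Good B) : AddCommGroup (Plus F h) := inferInstanceAs (AddCommGroup B)

instance (h : Good B) : Module F (Plus F h) := inferInstanceAs (Module F B)

/-- identity map -/
def toPlus (F : Type u) [Field F] {B : Type u} [NonUnitalNonAssocRing B] [Module F B]
    (h : Good B) : B ≃ₗ[F] Plus F h := LinearEquiv.refl F B

instance (h : Good B) : Mul (Plus F h) :=
  ⟨fun x y => toPlus F h ((2 : F)⁻¹ • jor ((toPlus F h).symm x) ((toPlus F h).symm y))⟩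

lemma toPlus_mul (h : Good B) (x y : B) :
    toPlus F h x * toPlus F h y = toPlus F h ((2 : F)⁻¹ • jor x y) := rfl

instance (h : Good B) : NonUnitalCommRing (Plus F h) where
  left_distrib x y z := by
    obtain ⟨x, rfl⟩ := (toPlus F h).surjective x
    obtain ⟨y, rfl⟩ := (toPlus F h).surjective y
    obtain ⟨z, rfl⟩ := (toPlus F h).surjective z
    rw [← map_add, toPlus_mul, toPlus_mul, toPlus_mul, ← map_add]
    congr 1
    simp only [jor, mul_add, add_mul, smul_add]
    abel
  right_distrib x y z := by
    obtain ⟨x, rfl⟩ := (toPlus F h).surjective x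
    obtain ⟨y, rfl⟩ := (toPlus F h).surjective y
    obtain ⟨z, rfl⟩ := (toPlus F h).surjective z
    rw [← map_add, toPlus_mul, toPlus_mul, toPlus_mul, ← map_add]
    congr 1
    simp only [jor, mul_add, add_mul, smul_add]
    abel
  zero_mul x := by
    obtain ⟨x, rfl⟩ := (toPlus F h).surjective x
    rw [← map_zero (toPlus F h), toPlus_mul]
    simp [jor]
  mul_zero x := by
    obtain ⟨x, rfl⟩ := (toPlus F h).surjective x
    rw [← map_zero (toPlus F h), toPlus_mul]
    simp [jor]
  mul_assoc x y z := by
    obtain ⟨x, rfl⟩ := (toPlus F h).surjective x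
    obtain ⟨y, rfl⟩ := (toPlus F h).surjective y
    obtain ⟨z, rfl⟩ := (toPlus F h).surjective z
    rw [toPlus_mul, toPlus_mul, toPlus_mul, toPlus_mul]
    congr 2
    have h1 : jor ((2 : F)⁻¹ • jor x y) z = (2 : F)⁻¹ • jor (jor x y) z := by
      generalize jor x y = t
      simp only [jor, smul_mul_assoc, mul_smul_comm, smul_add]
    have h2 : jor x ((2 : F)⁻¹ • jor y z) = (2 : F)⁻¹ • jor x (jor y z) := by
      generalize jor y z = t
      simp only [jor, smul_mul_assoc, mul_smul_comm, smul_add]
    rw [h1, h2, h.2]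
  mul_comm x y := by
    obtain ⟨x, rfl⟩ := (toPlus F h).surjective x
    obtain ⟨y, rfl⟩ := (toPlus F h).surjective y
    rw [toPlus_mul, toPlus_mul, jor, jor, add_comm]

instance (h : Good B) : IsScalarTower F (Plus F h) (Plus F h) where
  smul_assoc c x y := by
    obtain ⟨x, rfl⟩ := (toPlus F h).surjective x
    obtain ⟨y, rfl⟩ := (toPlus F h).surjective y
    rw [smul_eq_mul, smul_eq_mul, ← map_smul, toPlus_mul, toPlus_mul, ← map_smul]
    congr 1
    simp only [jor, smul_mul_assoc, mul_smul_comm, smul_add, smul_comm c]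

instance (h : Good B) : SMulCommClass F (Plus F h) (Plus F h) where
  smul_comm c x y := by
    rw [smul_eq_mul, smul_eq_mul, mul_comm x, mul_comm x, smul_mul_assoc]

/-- embedding into a commutative associative unital algebra -/
def jj (F : Type u) [Field F] {B : Type u} [NonUnitalNonAssocRing B] [Module F B]
    [IsScalarTower F B B] [SMulCommClass F B B] (h : Good B) :
    B →ₗ[F] Unitization F (Plus F h) :=
  (Unitization.inrHom F F (Plus F h)).comp (toPlus F h).toLinearMap

lemma jj_apply (h : Good B) (x : B) : jj F h x = (toPlus F h x : Unitization F (Plus F h)) := rfl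

lemma jj_injective (h : Good B) : Function.Injective (jj F h) :=
  Unitization.inr_injective.comp (toPlus F h).injective

lemma jj_mul (h : Good B) (x y : B) : jj F h x * jj F h y = jj F h ((2 : F)⁻¹ • jor x y) := by
  rw [jj_apply, jj_apply, jj_apply, ← Unitization.inr_mul, toPlus_mul]

/-- half the commutator -/
def br (F : Type u) [Field F] {B : Type u} [NonUnitalNonAssocRing B] [Module F B]
    [IsScalarTower F B B] [SMulCommClass F B B] : B →ₗ[F] B →ₗ[F] B :=
  LinearMap.mk₂ F (fun x y => (2 : F)⁻¹ • (x * y - y * x))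
    (fun x x' y => by simp only [add_mul, mul_add, smul_sub, smul_add]; abel)
    (fun c x y => by simp only [smul_mul_assoc, mul_smul_comm, smul_sub, smul_comm c])
    (fun x y y' => by simp only [add_mul, mul_add, smul_sub, smul_add]; abel)
    (fun c x y => by simp only [smul_mul_assoc, mul_smul_comm, smul_sub, smul_comm c])

lemma br_apply (x y : B) : br F x y = (2 : F)⁻¹ • (x * y - y * x) := rfl

lemma br_swap (x y : B) : br F y x = - br F x y := by
  rw [br_apply, br_apply, ← smul_neg, neg_sub]

lemma br_central {z : B} (hz : ∀ y, z * y = y * z) (y : B) : br F z y = 0 := by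
  rw [br_apply, hz, sub_self, smul_zero]

lemma mul_eq_jor_add_br [CharZero F] (x y : B) : x * y = (2 : F)⁻¹ • jor x y + br F x y := by
  rw [br_apply, jor, ← smul_add]
  have : x * y + y * x + (x * y - y * x) = (2 : F) • (x * y) := by rw [two_smul]; abel
  rw [this, smul_smul, inv_mul_cancel₀ two_ne_zero, one_smul]

/-- evaluation of generic polynomials -/
noncomputable def ev (h : Good B) (a : ℕ → B) : RR F →ₐ[F] Unitization F (Plus F h) :=
  aeval fun q : Pr => if q.1.1 = 0 then jj F h (a (q.1.2 - 1))
    else jj F h (br F (a (q.1.1 - 1)) (a (q.1.2 - 1)))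

lemma ev_om0 (h : Good B) (a : ℕ → B) (i : ℕ) : ev h a (om F 0 (i + 1)) = jj F h (a i) := by
  simp [om, ev]

lemma ev_om (h : Good B) (a : ℕ → B) (i k : ℕ) :
    ev h a (om F (i + 1) (k + 1)) = jj F h (br F (a i) (a k)) := by
  rcases lt_trichotomy i k with h1 | h1 | h1
  · simp [om, ev, h1]
  · subst h1
    simp [om_self, br_apply]
  · rw [br_swap]
    simp [om, ev, h1, h1.not_gt]

end

/-- the generic skew form -/
noncomputable def Om (F : Type u) [Field F] : (ℕ →₀ F) →ₗ[F] (ℕ →₀ F) →ₗ[F] RR F :=
  Finsupp.linearCombination F fun i => Finsupp.linearCombination F fun k => om F (i + 1) (k + 1)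

lemma Om_single (i k : ℕ) (c d : F) :
    Om F (Finsupp.single i c) (Finsupp.single k d) = c • d • om F (i + 1) (k + 1) := by
  simp [Om]

lemma Om_swap (v w : ℕ →₀ F) : Om F w v = - Om F v w := by
  have : (Om F).flip = - Om F := by
    ext i k : 4
    simp [Om_single, om_swap (i + 1) (k + 1)]
  exact LinearMap.congr_fun₂ this v w

/-- the generic model of the variety -/
def Mod (F : Type u) [Field F] : Type u := RR F × (ℕ →₀ F)

noncomputable instance : AddCommGroup (Mod F) := inferInstanceAs (AddCommGroup (RR F × (ℕ →₀ F)))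

noncomputable instance : Module F (Mod F) := inferInstanceAs (Module F (RR F × (ℕ →₀ F)))

/-- first coordinate -/
noncomputable def m1 (F : Type u) [Field F] : Mod F →ₗ[F] RR F := LinearMap.fst F _ _

/-- second coordinate -/
noncomputable def m2 (F : Type u) [Field F] : Mod F →ₗ[F] (ℕ →₀ F) := LinearMap.snd F _ _

lemma Mod.ext {x y : Mod F} (h1 : m1 F x = m1 F y) (h2 : m2 F x = m2 F y) : x = y :=
  Prod.ext h1 h2

noncomputable instance : Mul (Mod F) :=
  ⟨fun x y => (m1 F x * m1 F y + Om F (m2 F x) (m2 F y), 0)⟩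

lemma m1_mul (x y : Mod F) : m1 F (x * y) = m1 F x * m1 F y + Om F (m2 F x) (m2 F y) := rfl

lemma m2_mul (x y : Mod F) : m2 F (x * y) = 0 := rfl

noncomputable instance : NonUnitalNonAssocRing (Mod F) where
  left_distrib x y z := Mod.ext (by simp only [m1_mul, map_add]; ring) (by simp [m2_mul])
  right_distrib x y z :=
    Mod.ext (by simp only [m1_mul, map_add, LinearMap.add_apply]; ring) (by simp [m2_mul])
  zero_mul x := Mod.ext (by simp [m1_mul]) (by simp [m2_mul])
  mul_zero x := Mod.ext (by simp [m1_mul]) (by simp [m2_mul])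

instance : IsScalarTower F (Mod F) (Mod F) where
  smul_assoc c x y := Mod.ext (by simp [m1_mul]) (by simp [m2_mul])

instance : SMulCommClass F (Mod F) (Mod F) where
  smul_comm c x y := Mod.ext (by simp [m1_mul]) (by simp [m2_mul])

lemma good_Mod : Good (Mod F) := by
  have hj : ∀ x y : Mod F, m1 F (jor x y) = 2 * (m1 F x * m1 F y) := by
    intro x y
    rw [jor, map_add, m1_mul, m1_mul, Om_swap (m2 F x)]
    ring
  refine ⟨fun x y z => Mod.ext ?_ ?_, fun x y z => Mod.ext ?_ ?_⟩
  · simp [m1_mul, m2_mul, mul_comm]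
  · simp [m2_mul]
  · simp only [hj]; ring
  · simp [jor, m2_mul]

/-- generic elements -/
noncomputable def gen (F : Type u) [Field F] (i : ℕ) : Mod F :=
  (om F 0 (i + 1), Finsupp.single i 1)

/-- the generic substitution -/
noncomputable def pp (F : Type u) [Field F] : FN F →ₙₐ[F] Mod F :=
  FreeNonUnitalNonAssocAlgebra.lift F (gen F)

lemma m1_pp_of (i : ℕ) :
    m1 F (pp F (FreeNonUnitalNonAssocAlgebra.of F i)) = om F 0 (i + 1) := by
  rw [pp, FreeNonUnitalNonAssocAlgebra.lift_of_apply]; rfl

lemma m2_pp_of (i : ℕ) :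
    m2 F (pp F (FreeNonUnitalNonAssocAlgebra.of F i)) = Finsupp.single i 1 := by
  rw [pp, FreeNonUnitalNonAssocAlgebra.lift_of_apply]; rfl

lemma exists_preimage [CharZero F] (p : RR F) :
    ∃ f, m1 F (pp F f) = p - C (constantCoeff p) := by
  have hX : ∀ q : Pr, ∃ f, m1 F (pp F f) = X q := by
    rintro ⟨⟨i, k⟩, h⟩
    obtain ⟨k, rfl⟩ : ∃ k', k = k' + 1 := ⟨k - 1, by simp only at h; omega⟩
    rw [← om_X]
    rcases i with _ | i
    · exact ⟨_, m1_pp_of k⟩
    · refine ⟨br F (FreeNonUnitalNonAssocAlgebra.of F i) (FreeNonUnitalNonAssocAlgebra.of F k), ?_⟩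
      rw [br_apply, map_smul, map_smul, map_sub, map_sub, map_mul (pp F), map_mul (pp F), m1_mul,
        m1_mul, m2_pp_of, m2_pp_of, Om_single, Om_single, om_swap (i + 1) (k + 1), mul_comm]
      simp only [one_smul]
      rw [add_sub_add_left_eq_sub, sub_neg_eq_add, ← two_smul F, smul_smul,
        inv_mul_cancel₀ two_ne_zero, one_smul]
  induction p using MvPolynomial.induction_on with
  | C c => exact ⟨0, by simp⟩
  | add p q hp hq =>
    obtain ⟨f, hf⟩ := hp
    obtain ⟨g, hg⟩ := hq
    exact ⟨f + g, by simp only [map_add, hf, hg]; ring⟩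
  | mul_X p q hp =>
    obtain ⟨f, hf⟩ := hp
    obtain ⟨g, hg⟩ := hX q
    refine ⟨(2 : F)⁻¹ • (f * g + g * f) + constantCoeff p • g, ?_⟩
    simp only [map_add, map_smul, map_mul, m1_mul, hf, hg, constantCoeff_X, mul_zero, map_zero,
      sub_zero, Om_swap (m2 F (pp F f))]
    have : ∀ u v w : RR F, u * v + w + (v * u + -w) = (2 : F) • (u * v) := by
      intro u v w; rw [two_smul]; ring
    rw [this, smul_smul, inv_mul_cancel₀ two_ne_zero, one_smul, smul_eq_C_mul]
    ring

section

variable {B : Type u} [NonUnitalNonAssocRing B] [Module F B] [IsScalarTower F B B]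
  [SMulCommClass F B B]

lemma ev_Om (h : Good B) (a : ℕ → B) (v w : ℕ →₀ F) : ev h a (Om F v w) =
    jj F h (br F (Finsupp.linearCombination F a v) (Finsupp.linearCombination F a w)) := by
  induction v using Finsupp.induction_linear with
  | zero => simp
  | add x y hx hy => simp only [map_add, LinearMap.add_apply, hx, hy]
  | single i c =>
    induction w using Finsupp.induction_linear with
    | zero => simp
    | add x y hx hy => simp only [map_add, hx, hy]
    | single k d =>
      simp only [Om_single, map_smul, ev_om, Finsupp.linearCombination_single,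
        LinearMap.smul_apply]
      rw [smul_comm]

lemma lift_eq_aux [CharZero F] (h : Good B) (a : ℕ → B) (f : FN F) :
    jj F h (FreeNonUnitalNonAssocAlgebra.lift F a f) = ev h a (m1 F (pp F f)) ∧
    ∀ y, (FreeNonUnitalNonAssocAlgebra.lift F a f -
        Finsupp.linearCombination F a (m2 F (pp F f))) * y =
      y * (FreeNonUnitalNonAssocAlgebra.lift F a f -
        Finsupp.linearCombination F a (m2 F (pp F f))) := by
  induction f using FN_induction with
  | h1 i => simp [m1_pp_of, m2_pp_of, ev_om0]
  | h0 => simp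
  | hadd x y hx hy =>
    refine ⟨by simp only [map_add, hx.1, hy.1], fun z => ?_⟩
    simp only [map_add]
    rw [add_sub_add_comm, add_mul, mul_add, hx.2, hy.2]
  | hsmul c x hx =>
    refine ⟨by simp only [map_smul, hx.1], fun z => ?_⟩
    simp only [map_smul]
    rw [← smul_sub, smul_mul_assoc, mul_smul_comm, hx.2]
  | hmul x y hx hy =>
    constructor
    · rw [map_mul (pp F), map_mul (FreeNonUnitalNonAssocAlgebra.lift F a), m1_mul, map_add,
        map_mul (ev h a), ← hx.1, ← hy.1, ev_Om, jj_mul, ← map_add, mul_eq_jor_add_br (F := F)]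
      congr 2
      have e1 := br_central (F := F) hx.2 (FreeNonUnitalNonAssocAlgebra.lift F a y)
      have e2 := br_central (F := F) hy.2 (Finsupp.linearCombination F a (m2 F (pp F x)))
      rw [map_sub, LinearMap.sub_apply, sub_eq_zero] at e1 e2
      rw [e1, br_swap, e2, ← br_swap]
    · intro z
      simp only [map_mul, m2_mul, map_zero, sub_zero]
      exact h.1 _ _ _

/-- the ideal of generic polynomials vanishing on `B` -/
noncomputable def II (F : Type u) [Field F] {B : Type u} [NonUnitalNonAssocRing B] [Module F B]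
    [IsScalarTower F B B] [SMulCommClass F B B] (h : Good B) : Ideal (RR F) :=
  ⨅ a : ℕ → B, RingHom.ker (ev (F := F) h a)

lemma mem_II (h : Good B) (p : RR F) : p ∈ II F h ↔ ∀ a : ℕ → B, ev h a p = 0 := by
  simp [II, RingHom.mem_ker]

lemma mem_identities_iff [CharZero F] (h : Good B) (f : FN F) :
    f ∈ identities F B ↔ m1 F (pp F f) ∈ II F h := by
  rw [mem_II, mem_ids]
  refine forall_congr' fun a => ?_
  rw [← (lift_eq_aux h a f).1, map_eq_zero_iff _ (jj_injective h)]

lemma constantCoeff_II (h : Good B) {p : RR F} (hp : p ∈ II F h) : constantCoeff p = 0 := by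
  have h1 := (mem_II h p).1 hp 0
  have h2 : ev h (0 : ℕ → B) = aeval (0 : Pr → Unitization F (Plus F h)) := by
    unfold ev
    congr 1
    ext q : 1
    simp
  rw [h2, aeval_zero] at h1
  exact (map_eq_zero_iff _ (algebraMap F _).injective).1 h1

lemma poly_vanish {T : Type*} [CommRing T] [Algebra F T] [CharZero F] (Q : Polynomial T)
    (h : ∀ s : F, Q.eval (algebraMap F T s) = 0) (k : ℕ) : Q.coeff k = 0 := by
  rw [← Module.forall_dual_apply_eq_zero_iff F]
  intro φ
  have h1 : (∑ i ∈ Finset.range (Q.natDegree + 1), Polynomial.monomial i (φ (Q.coeff i))) = 0 := by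
    apply Polynomial.funext
    intro s
    have := congrArg φ (h s)
    rw [Polynomial.eval_eq_sum_range, map_sum, map_zero] at this
    rw [Polynomial.eval_finsetSum, Polynomial.eval_zero, ← this]
    refine Finset.sum_congr rfl fun i _ => ?_
    rw [Polynomial.eval_monomial, ← map_pow, mul_comm (Q.coeff i), ← Algebra.smul_def, map_smul,
      smul_eq_mul, mul_comm]
  by_cases hk : k ≤ Q.natDegree
  · have := congrArg (fun p => Polynomial.coeff p k) h1
    simpa [Polynomial.coeff_monomial, Nat.lt_succ_iff, hk] using this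
  · rw [Polynomial.coeff_eq_zero_of_natDegree_lt (not_le.1 hk), map_zero]

lemma ev_update (h : Good B) (x : ℕ → B) (a b : ℕ) (s : F) (q : Pr) :
    ev h (Function.update x b (x b + s • x a)) (X q) =
      ev h x (X q) + s • ev h x (E F (a + 1) (b + 1) (X q)) := by
  obtain ⟨⟨i, k⟩, hq⟩ := q
  obtain ⟨k, rfl⟩ : ∃ k', k = k' + 1 := ⟨k - 1, by simp only at hq; omega⟩
  rw [← om_X, E_om]
  simp only at hq ⊢
  rcases i with _ | i
  · rw [ev_om0, ev_om0, if_neg (by omega), zero_add]
    by_cases hk : k = b
    · subst hk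
      simp [ev_om0]
    · simp [hk]
  · rw [ev_om, ev_om]
    by_cases hi : i = b
    · subst hi
      have hk : k ≠ i := by omega
      simp [hk, ev_om]
    · by_cases hk : k = b
      · subst hk
        simp [hi, ev_om]
      · simp [hi, hk]

lemma stab_II [CharZero F] (h : Good B) : Stab (II F h) := by
  intro a b ha hb p hp
  obtain ⟨a, rfl⟩ : ∃ a', a = a' + 1 := ⟨a - 1, by omega⟩
  obtain ⟨b, rfl⟩ : ∃ b', b = b' + 1 := ⟨b - 1, by omega⟩
  rw [mem_II] at hp ⊢
  intro x
  let Ψ : RR F →ₐ[F] Polynomial (Unitization F (Plus F h)) := aeval fun q : Pr =>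
    Polynomial.C (ev h x (X q)) + Polynomial.X * Polynomial.C (ev h x (E F (a + 1) (b + 1) (X q)))
  have h1 : ∀ (s : F) (p : RR F), (Ψ p).eval (algebraMap F _ s) =
      ev h (Function.update x b (x b + s • x a)) p := by
    intro s p
    induction p using MvPolynomial.induction_on with
    | C c => simp [Ψ]
    | add p q hp hq => simp only [map_add, Polynomial.eval_add, hp, hq]
    | mul_X p q hp =>
      rw [map_mul, map_mul, Polynomial.eval_mul, hp, ev_update]
      congr 1
      simp only [Ψ, aeval_X, Polynomial.eval_add, Polynomial.eval_mul, Polynomial.eval_C,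
        Polynomial.eval_X, Algebra.smul_def]
  have h2 : ∀ p : RR F, (Ψ p).coeff 0 = ev h x p ∧
      (Ψ p).coeff 1 = ev h x (E F (a + 1) (b + 1) p) := by
    intro p
    induction p using MvPolynomial.induction_on with
    | C c => simp [Ψ, Polynomial.coeff_C]
    | add p q hp hq => simp only [map_add, Polynomial.coeff_add, hp.1, hp.2, hq.1, hq.2, and_self]
    | mul_X p q hp =>
      have e : Ψ (p * X q) = Ψ p * Polynomial.C (ev h x (X q)) +
          Ψ p * Polynomial.X * Polynomial.C (ev h x (E F (a + 1) (b + 1) (X q))) := by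
        rw [map_mul]
        simp only [Ψ, aeval_X]
        ring
      rw [e]
      constructor
      · simp [hp.1]
      · rw [Polynomial.coeff_add, Polynomial.coeff_mul_C, Polynomial.coeff_mul_C,
          Polynomial.coeff_mul_X, hp.1, hp.2, Derivation.leibniz]
        simp only [smul_eq_mul, map_add, map_mul]
        ring
  rw [← (h2 p).2]
  exact poly_vanish (F := F) _ (fun s => by rw [h1, hp]) 1

end

theorem spechtian [CharZero F] : Spechtian F (SS F) := by
  classical
  intro A _ _ _ _ hA
  have h := good_iff.1 hA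
  obtain ⟨s, hs, hs'⟩ := noeth (stab_II (F := F) h)
  choose g hg using exists_preimage (F := F)
  have hg' : ∀ p ∈ s, m1 F (pp F (g p)) = p := by
    intro p hp
    rw [hg, constantCoeff_II h (hs p hp), map_zero, sub_zero]
  refine ⟨SS F ∪ g '' s, ((Set.finite_singleton _).insert _).union (s.finite_toSet.image _), ?_⟩
  intro B _ _ _ _
  constructor
  · intro hB f hf
    have h' := good_iff.1 (Set.subset_union_left.trans hB)
    rw [mem_identities_iff h']
    refine hs' _ (stab_II h') (fun p hp => ?_) ((mem_identities_iff h f).1 hf)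
    rw [← hg' p hp, ← mem_identities_iff h']
    exact hB (Or.inr ⟨p, hp, rfl⟩)
  · intro hB
    refine Set.Subset.trans (Set.union_subset hA ?_) hB
    rintro _ ⟨p, hp, rfl⟩
    rw [mem_identities_iff h, hg' p hp]
    exact hs p hp

end Pool.Agent.H237Z.Sp
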